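import Pool.Agent.X10.ML.FComp
import Pool.Agent.H692R2.USS.T1

set_option autoImplicit false

/-! # Counting the primes before long gaps (helper10) -/

namespace Pool.Agent.X10.ML

open Finset

/-- **Blocks.** If every interval `(z, z + B]` contains a number `n` without primes at distance less
than `g`, then the primes of `(X, X + M B]` are at most `44 B / log B` times as many as the primes of
`(X, X + (M + 1) B]` that are followed by a gap of length at least `g`. -/
lemma blocks (X B M : ℕ) (g : ℝ) (hB : 2 ≤ B)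
    (hc : ∀ z : ℕ, ∃ n : ℕ, z < n ∧ n ≤ z + B ∧ ∀ p : ℕ, p.Prime → g < |(p : ℝ) - n|) :
    ∃ T : Finset ℕ, (∀ p ∈ T, X < p ∧ p ≤ X + (M + 1) * B ∧ p.Prime ∧
      ∀ q : ℕ, q.Prime → p < q → (p : ℝ) + g ≤ q) ∧
      (((Ioc X (X + M * B)).filter Nat.Prime).card : ℝ) ≤ 44 * B / Real.log B * T.card := by
  classical
  choose ctr c1 c2 c3 using hc
  obtain ⟨n, hn⟩ : ∃ n : ℕ → ℕ, n = fun i => ctr (X + (i + 1) * B) := ⟨_, rfl⟩
  have n1 : ∀ i, X + (i + 1) * B < n i := fun i => by rw [hn]; exact c1 _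
  have n2 : ∀ i, n i ≤ X + (i + 2) * B := fun i => by
    rw [hn]
    have := c2 (X + (i + 1) * B)
    calc ctr (X + (i + 1) * B) ≤ X + (i + 1) * B + B := this
      _ = X + (i + 2) * B := by ring
  have n3 : ∀ i, ∀ p : ℕ, p.Prime → g < |(p : ℝ) - n i| := fun i => by rw [hn]; exact c3 _
  obtain ⟨blk, hblk⟩ : ∃ blk : ℕ → ℕ, blk = fun p => (p - X - 1) / B := ⟨_, rfl⟩
  obtain ⟨gg, hgg⟩ : ∃ gg : ℕ → ℕ, gg = fun p => Nat.findGreatest Nat.Prime (n (blk p)) := ⟨_, rfl⟩
  obtain ⟨Ps, hPs⟩ : ∃ Ps, Ps = (Ioc X (X + M * B)).filter Nat.Prime := ⟨_, rfl⟩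
  have hB0 : 0 < B := by omega
  have hblk1 : ∀ p ∈ Ps, X + blk p * B < p ∧ p ≤ X + (blk p + 1) * B ∧ blk p < M ∧ p.Prime := by
    intro p hp
    rw [hPs, mem_filter, mem_Ioc] at hp
    obtain ⟨⟨hp1, hp2⟩, hp3⟩ := hp
    have e1 : blk p * B ≤ p - X - 1 := by rw [hblk]; exact Nat.div_mul_le_self _ _
    have e2 : p - X - 1 < (blk p + 1) * B := by
      rw [hblk]
      have := Nat.lt_div_mul_add (a := p - X - 1) hB0
      calc p - X - 1 < (p - X - 1) / B * B + B := this
        _ = ((p - X - 1) / B + 1) * B := by ring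
    have e3 : blk p < M := by
      rw [hblk]
      exact (Nat.div_lt_iff_lt_mul hB0).2 (by omega)
    exact ⟨by omega, by omega, e3, hp3⟩
  -- the properties of the prime before the centre
  have hg1 : ∀ p ∈ Ps, (gg p).Prime ∧ p ≤ gg p ∧ gg p ≤ n (blk p) ∧
      ∀ q : ℕ, q.Prime → gg p < q → (gg p : ℝ) + g ≤ q := by
    intro p hp
    obtain ⟨b1, b2, b3, b4⟩ := hblk1 p hp
    have hple : p ≤ n (blk p) := b2.trans (n1 _).le
    have e1 : (gg p).Prime := by rw [hgg]; exact Nat.findGreatest_spec hple b4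
    have e2 : p ≤ gg p := by rw [hgg]; exact Nat.le_findGreatest hple b4
    have e3 : gg p ≤ n (blk p) := by rw [hgg]; exact Nat.findGreatest_le _
    refine ⟨e1, e2, e3, fun q hq hlt => ?_⟩
    have h1 : n (blk p) < q := by
      by_contra hcon
      push Not at hcon
      have : q ≤ gg p := by rw [hgg]; exact Nat.le_findGreatest hcon hq
      omega
    have h2 := n3 (blk p) q hq
    have h1r : (n (blk p) : ℝ) < q := by exact_mod_cast h1
    rw [abs_of_pos (by linarith)] at h2
    have h3 : (gg p : ℝ) ≤ n (blk p) := by exact_mod_cast e3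
    linarith
  refine ⟨Ps.image gg, ?_, ?_⟩
  · intro t ht
    rw [mem_image] at ht
    obtain ⟨p, hp, rfl⟩ := ht
    obtain ⟨a1, a2, a3, a4⟩ := hg1 p hp
    obtain ⟨b1, b2, b3, b4⟩ := hblk1 p hp
    refine ⟨by have : 0 ≤ blk p * B := Nat.zero_le _
               omega, ?_, a1, a4⟩
    refine a3.trans ((n2 _).trans ?_)
    have : (blk p + 2) * B ≤ (M + 1) * B := Nat.mul_le_mul_right _ (by omega)
    omega
  · rw [← hPs]
    have hBr : (2 : ℝ) ≤ B := by exact_mod_cast hB
    have hlogB : 0 < Real.log B := Real.log_pos (by linarith)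
    have hfib : ∀ t ∈ Ps.image gg, ((Ps.filter fun p => gg p = t).card : ℝ) ≤
        44 * B / Real.log B := by
      intro t ht
      -- the smallest block
      have hne : (Ps.filter fun p => gg p = t).Nonempty := by
        rw [mem_image] at ht
        obtain ⟨p, hp, h⟩ := ht
        exact ⟨p, mem_filter.2 ⟨hp, h⟩⟩
      obtain ⟨p₀, hp₀, hmin⟩ := exists_min_image _ blk hne
      rw [mem_filter] at hp₀
      have hsub : ∀ p ∈ Ps.filter (fun p => gg p = t), blk p ≤ blk p₀ + 1 := by
        intro p hp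
        rw [mem_filter] at hp
        by_contra hcon
        push Not at hcon
        obtain ⟨b1, b2, b3, b4⟩ := hblk1 p hp.1
        obtain ⟨a1, a2, a3, a4⟩ := hg1 p hp.1
        obtain ⟨a1', a2', a3', a4'⟩ := hg1 p₀ hp₀.1
        have h1 : (blk p₀ + 2) * B ≤ blk p * B := Nat.mul_le_mul_right _ (by omega)
        have h2 := n2 (blk p₀)
        have h3 : gg p = gg p₀ := hp.2.trans hp₀.2.symm
        omega
      have hbt := Pool.Agent.H692R2.USS.t1_brun_titchmarsh (X + blk p₀ * B + 1) 1 (2 * B)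
        (by omega) le_rfl
      have hcard : ((Ps.filter fun p => gg p = t).card : ℝ) ≤
          (((range (2 * B)).filter (fun k => (X + blk p₀ * B + 1 + k * 1).Prime)).card : ℝ) := by
        have hle : (Ps.filter fun p => gg p = t) ⊆
            ((range (2 * B)).filter (fun k => (X + blk p₀ * B + 1 + k * 1).Prime)).image
              (fun k => X + blk p₀ * B + 1 + k) := by
          intro p hp
          have hb := hsub p hp
          have hb' := hmin p hp
          rw [mem_filter] at hp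
          obtain ⟨b1, b2, b3, b4⟩ := hblk1 p hp.1
          have g1 : blk p₀ * B ≤ blk p * B := Nat.mul_le_mul_right _ hb'
          have g2 : (blk p + 1) * B ≤ (blk p₀ + 2) * B := Nat.mul_le_mul_right _ (by omega)
          have g3 : (blk p₀ + 2) * B = blk p₀ * B + 2 * B := by ring
          rw [mem_image]
          refine ⟨p - (X + blk p₀ * B + 1), ?_, by omega⟩
          rw [mem_filter, mem_range]
          refine ⟨by omega, ?_⟩
          have : X + blk p₀ * B + 1 + (p - (X + blk p₀ * B + 1)) * 1 = p := by omega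
          rw [this]
          exact b4
        have h1 := (card_le_card hle).trans card_image_le
        exact_mod_cast h1
      refine hcard.trans (hbt.trans ?_)
      rw [Nat.totient_one]
      push_cast
      have h1 : Real.log B ≤ Real.log (2 * B) := Real.log_le_log (by linarith) (by linarith)
      calc 22 * ((1 : ℝ) / 1) * (2 * B) / Real.log (2 * B) = 44 * B / Real.log (2 * B) := by ring
        _ ≤ 44 * B / Real.log B := div_le_div_of_nonneg_left (by positivity) hlogB h1
    have h1 := card_eq_sum_card_image gg Ps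
    have h2 : (Ps.card : ℝ) = ∑ t ∈ Ps.image gg, ((Ps.filter fun p => gg p = t).card : ℝ) := by
      rw [h1]; push_cast; rfl
    rw [h2]
    calc ∑ t ∈ Ps.image gg, ((Ps.filter fun p => gg p = t).card : ℝ)
        ≤ ∑ t ∈ Ps.image gg, 44 * B / Real.log B := sum_le_sum hfib
      _ = 44 * B / Real.log B * (Ps.image gg).card := by
        rw [sum_const, nsmul_eq_mul]; ring

/-- **Short gaps.** Among `K` primes of `(X, X + Y]` at most `Y / D + 1` are followed by a gap longer
than `D`. -/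
lemma few_long (X Y : ℕ) (D : ℝ) (hD : 0 < D) (s : Finset ℕ)
    (hs : ∀ p ∈ s, X < p ∧ p ≤ X + Y ∧ p.Prime ∧ ∀ q : ℕ, q.Prime → p < q → (p : ℝ) + D ≤ q) :
    (s.card : ℝ) ≤ Y / D + 1 := by
  classical
  have hinj : ∀ p ∈ s, ∀ q ∈ s, p < q → ⌊((p : ℝ) - X) / D⌋₊ < ⌊((q : ℝ) - X) / D⌋₊ := by
    intro p hp q hq hpq
    obtain ⟨p1, p2, p3, p4⟩ := hs p hp
    obtain ⟨q1, q2, q3, q4⟩ := hs q hq
    have h1 := p4 q q3 hpq
    have h2 : ((p : ℝ) - X) / D + 1 ≤ ((q : ℝ) - X) / D := by
      rw [div_add_one hD.ne', div_le_div_iff_of_pos_right hD]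
      linarith
    have hpX : (X : ℝ) < p := by exact_mod_cast p1
    have h3 : (⌊((p : ℝ) - X) / D⌋₊ : ℝ) ≤ ((p : ℝ) - X) / D :=
      Nat.floor_le (div_nonneg (by linarith) hD.le)
    rw [← Nat.succ_le_iff]
    apply Nat.le_floor
    push_cast
    linarith
  have hmaps : ∀ p ∈ s, ⌊((p : ℝ) - X) / D⌋₊ ∈ range (⌊(Y : ℝ) / D⌋₊ + 1) := by
    intro p hp
    obtain ⟨p1, p2, p3, p4⟩ := hs p hp
    rw [mem_range, Nat.lt_succ_iff]
    apply Nat.floor_le_floor
    apply div_le_div_of_nonneg_right _ hD.le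
    have : (p : ℝ) ≤ X + Y := by exact_mod_cast p2
    linarith
  have hcard := card_le_card_of_injOn (fun p : ℕ => ⌊((p : ℝ) - X) / D⌋₊) hmaps (by
    intro p hp q hq hpq
    simp only at hpq
    by_contra hne
    rcases lt_or_gt_of_ne hne with h | h
    · have := hinj p hp q hq h; omega
    · have := hinj q hq p hp h; omega)
  rw [card_range] at hcard
  have h1 : (s.card : ℝ) ≤ ⌊(Y : ℝ) / D⌋₊ + 1 := by exact_mod_cast hcard
  have h2 : (⌊(Y : ℝ) / D⌋₊ : ℝ) ≤ Y / D := Nat.floor_le (by positivity)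
  linarith

end Pool.Agent.X10.ML
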