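import Mathlib

set_option autoImplicit false

/-! # A lower bound for the Hausdorff dimension of Cantor sets with separated pieces (helper10) -/

namespace Pool.Agent.X10.ML

open Finset

/-- the tails of the Cantor series of `y` -/
noncomputable def tl (m : ℕ → ℕ) (y : ℝ) : ℕ → ℝ
  | 0 => y
  | n + 1 => Int.fract (m n * tl m y n)

lemma tl_mem (m : ℕ → ℕ) {y : ℝ} (hy : y ∈ Set.Ico (0 : ℝ) 1) (n : ℕ) : tl m y n ∈ Set.Ico (0 : ℝ) 1 := by
  cases n with
  | zero => exact hy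
  | succ n => exact ⟨Int.fract_nonneg _, Int.fract_lt_one _⟩

/-- the digits of the Cantor series of `y` -/
noncomputable def dg (m : ℕ → ℕ) (hm : ∀ n, 2 ≤ m n) (y : ℝ) (n : ℕ) : Fin (m n) :=
  ⟨⌊m n * tl m y n⌋₊ % m n, Nat.mod_lt _ (by have := hm n; omega)⟩

lemma dg_val (m : ℕ → ℕ) (hm : ∀ n, 2 ≤ m n) {y : ℝ} (hy : y ∈ Set.Ico (0 : ℝ) 1) (n : ℕ) :
    ((dg m hm y n : ℕ) : ℝ) + tl m y (n + 1) = m n * tl m y n := by
  have h1 := tl_mem m hy n
  have hm0 : (0 : ℝ) < m n := by exact_mod_cast (by have := hm n; omega : 0 < m n)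
  have h2 : 0 ≤ m n * tl m y n := mul_nonneg hm0.le h1.1
  have h3 : m n * tl m y n < m n := by
    have := mul_lt_mul_of_pos_left h1.2 hm0
    linarith
  have h4 : ⌊m n * tl m y n⌋₊ < m n := by
    rw [Nat.floor_lt h2]
    exact h3
  have h5 : ((dg m hm y n : ℕ) : ℝ) = ((⌊m n * tl m y n⌋₊ : ℕ) : ℝ) := by
    simp only [dg]
    rw [Nat.mod_eq_of_lt h4]
  rw [h5]
  simp only [tl]
  have h6 : ((⌊m n * tl m y n⌋₊ : ℕ) : ℝ) = ((⌊m n * tl m y n⌋ : ℤ) : ℝ) := by
    rw [← natCast_floor_eq_intCast_floor h2]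
  rw [h6]
  exact Int.floor_add_fract _

lemma tl_expand (m : ℕ → ℕ) (hm : ∀ n, 2 ≤ m n) {y y' : ℝ} (hy : y ∈ Set.Ico (0 : ℝ) 1)
    (hy' : y' ∈ Set.Ico (0 : ℝ) 1) (n : ℕ) (h : ∀ i < n, dg m hm y i = dg m hm y' i) :
    y - y' = (tl m y n - tl m y' n) / ∏ i ∈ range n, (m i : ℝ) := by
  induction n with
  | zero => simp [tl]
  | succ n ih =>
    rw [ih (fun i hi => h i (by omega)), prod_range_succ]
    have hm0 : (0 : ℝ) < m n := by exact_mod_cast (by have := hm n; omega : 0 < m n)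
    have hP : (0 : ℝ) < ∏ i ∈ range n, (m i : ℝ) := prod_pos fun i _ => by
      exact_mod_cast (by have := hm i; omega : 0 < m i)
    have h1 := dg_val m hm hy n
    have h2 := dg_val m hm hy' n
    rw [h n (by omega)] at h1
    have h3 : tl m y (n + 1) - tl m y' (n + 1) = m n * (tl m y n - tl m y' n) := by linarith
    rw [h3]
    field_simp

lemma prod_ge (m : ℕ → ℕ) (hm : ∀ n, 2 ≤ m n) (n : ℕ) : (2 : ℝ) ^ n ≤ ∏ i ∈ range n, (m i : ℝ) := by
  calc (2 : ℝ) ^ n = ∏ _i ∈ range n, (2 : ℝ) := by rw [prod_const, card_range]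
    _ ≤ _ := prod_le_prod (fun _ _ => by norm_num) fun i _ => by exact_mod_cast hm i

/-- two different numbers have different digits -/
lemma exists_digit (m : ℕ → ℕ) (hm : ∀ n, 2 ≤ m n) {y y' : ℝ} (hy : y ∈ Set.Ico (0 : ℝ) 1)
    (hy' : y' ∈ Set.Ico (0 : ℝ) 1) (hne : y ≠ y') :
    ∃ n, (∀ i < n, dg m hm y i = dg m hm y' i) ∧ dg m hm y n ≠ dg m hm y' n := by
  have hex : ∃ n, dg m hm y n ≠ dg m hm y' n := by
    by_contra hcon
    push Not at hcon
    have h1 : ∀ n : ℕ, |y - y'| ≤ (1 / 2) ^ n := by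
      intro n
      rw [tl_expand m hm hy hy' n (fun i _ => hcon i), abs_div]
      have hP := prod_ge m hm n
      have h0 : (0 : ℝ) < 2 ^ n := by positivity
      rw [abs_of_pos (lt_of_lt_of_le h0 hP), div_le_iff₀ (lt_of_lt_of_le h0 hP)]
      have h2 := tl_mem m hy n
      have h3 := tl_mem m hy' n
      have h4 : |tl m y n - tl m y' n| ≤ 1 := by
        rw [abs_le]
        constructor <;> linarith [h2.1, h2.2, h3.1, h3.2]
      refine h4.trans ?_
      calc (1 : ℝ) = (1 / 2) ^ n * 2 ^ n := by rw [← mul_pow]; norm_num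
        _ ≤ _ := mul_le_mul_of_nonneg_left hP (by positivity)
    have h2 : |y - y'| ≤ 0 := by
      refine ge_of_tendsto' (tendsto_pow_atTop_nhds_zero_of_lt_one (by norm_num) (by norm_num : (1 / 2 : ℝ) < 1)) h1
    exact hne (sub_eq_zero.1 (abs_nonpos_iff.1 h2))
  classical
  exact ⟨Nat.find hex, fun i hi => not_not.1 (Nat.find_min hex hi), Nat.find_spec hex⟩

/-- **Dimension of Cantor sets.** The pieces of the `n`-th generation are numbered by digits in `Fin (m n)`, and two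
points whose first different digits, at the place `n`, differ by `k` have distance at least `k e_n`. -/
theorem dimH_cantor (m : ℕ → ℕ) (hm : ∀ n, 2 ≤ m n) (s : ℝ) (hs0 : 0 < s) (hs1 : s ≤ 1) (e : ℕ → ℝ)
    (he : ∀ n, 0 < e n) (c₀ : ℝ) (hc₀ : 0 < c₀)
    (hM : ∀ n, c₀ ≤ (∏ i ∈ range n, (m i : ℝ)) * ((m n : ℝ) * e n) ^ s)
    (pt : ((n : ℕ) → Fin (m n)) → ℝ)
    (hsep : ∀ (d d' : (n : ℕ) → Fin (m n)) (n : ℕ), (∀ i < n, d i = d' i) → d n ≠ d' n →
      |(((d n : ℕ) : ℝ)) - ((d' n : ℕ) : ℝ)| * e n ≤ |pt d - pt d'|) :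
    ENNReal.ofReal s ≤ dimH (Set.range pt) := by
  classical
  obtain ⟨h, hh⟩ : ∃ h : ℝ → ℝ, h = fun y => pt (fun n => dg m hm y n) := ⟨_, rfl⟩
  -- the inverse is Hölder continuous
  have key : ∀ y ∈ Set.Ico (0 : ℝ) 1, ∀ y' ∈ Set.Ico (0 : ℝ) 1, |y - y'| ≤ 2 / c₀ * |h y - h y'| ^ s := by
    intro y hy y' hy'
    by_cases hne : y = y'
    · rw [hne, sub_self, abs_zero]
      positivity
    obtain ⟨n, hn1, hn2⟩ := exists_digit m hm hy hy' hne
    have hm0 : (0 : ℝ) < m n := by exact_mod_cast (by have := hm n; omega : 0 < m n)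
    have hP : (0 : ℝ) < ∏ i ∈ range n, (m i : ℝ) := lt_of_lt_of_le (by positivity) (prod_ge m hm n)
    obtain ⟨k, hk⟩ : ∃ k : ℝ, k = |(((dg m hm y n : ℕ) : ℝ)) - ((dg m hm y' n : ℕ) : ℝ)| := ⟨_, rfl⟩
    have hk1 : 1 ≤ k := by
      rw [hk]
      have : ((dg m hm y n : ℕ) : ℤ) - ((dg m hm y' n : ℕ) : ℤ) ≠ 0 := by
        intro h0
        apply hn2
        apply Fin.ext
        omega
      have h1 := Int.one_le_abs this
      exact_mod_cast h1
    have hkm : k ≤ m n := by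
      rw [hk, abs_le]
      have h1 : ((dg m hm y n : ℕ) : ℝ) ≤ m n := by exact_mod_cast (dg m hm y n).2.le
      have h2 : ((dg m hm y' n : ℕ) : ℝ) ≤ m n := by exact_mod_cast (dg m hm y' n).2.le
      have h3 : (0 : ℝ) ≤ ((dg m hm y n : ℕ) : ℝ) := Nat.cast_nonneg _
      have h4 : (0 : ℝ) ≤ ((dg m hm y' n : ℕ) : ℝ) := Nat.cast_nonneg _
      constructor <;> linarith
    have h1 : |y - y'| ≤ 2 * k / ((∏ i ∈ range n, (m i : ℝ)) * m n) := by
      rw [tl_expand m hm hy hy' n hn1, abs_div, abs_of_pos hP, div_le_div_iff₀ hP (by positivity)]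
      have h2 : |tl m y n - tl m y' n| * m n ≤ 2 * k := by
        have h3 := dg_val m hm hy n
        have h4 := dg_val m hm hy' n
        have h5 : (m n : ℝ) * (tl m y n - tl m y' n) =
            (((dg m hm y n : ℕ) : ℝ) - ((dg m hm y' n : ℕ) : ℝ)) + (tl m y (n + 1) - tl m y' (n + 1)) := by linarith
        rw [mul_comm, ← abs_of_pos hm0, ← abs_mul, h5]
        refine (abs_add_le _ _).trans ?_
        rw [← hk]
        have h6 := tl_mem m hy (n + 1)
        have h7 := tl_mem m hy' (n + 1)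
        have h8 : |tl m y (n + 1) - tl m y' (n + 1)| ≤ 1 := by
          rw [abs_le]
          constructor <;> linarith [h6.1, h6.2, h7.1, h7.2]
        linarith
      calc |tl m y n - tl m y' n| * ((∏ i ∈ range n, (m i : ℝ)) * m n) =
          (|tl m y n - tl m y' n| * m n) * ∏ i ∈ range n, (m i : ℝ) := by ring
        _ ≤ _ := mul_le_mul_of_nonneg_right h2 hP.le
    have h2 : k * e n ≤ |h y - h y'| := by
      rw [hk, hh]
      exact hsep _ _ n hn1 hn2
    have h3 : 2 * k / ((∏ i ∈ range n, (m i : ℝ)) * m n) ≤ 2 / c₀ * (k * e n) ^ s := by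
      rw [div_le_iff₀ (by positivity)]
      have hk0 : 0 < k := by linarith
      have e1 : (k * e n) ^ s = k ^ s * e n ^ s := Real.mul_rpow hk0.le (he n).le
      have e2 : ((m n : ℝ) * e n) ^ s = (m n : ℝ) ^ s * e n ^ s := Real.mul_rpow hm0.le (he n).le
      have e3 : k = k ^ s * k ^ (1 - s) := by
        rw [← Real.rpow_add hk0]
        simp
      have e4 : (m n : ℝ) = (m n : ℝ) ^ s * (m n : ℝ) ^ (1 - s) := by
        rw [← Real.rpow_add hm0]
        simp
      have e5 : k ^ (1 - s) ≤ (m n : ℝ) ^ (1 - s) := Real.rpow_le_rpow hk0.le hkm (by linarith)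
      have e6 := hM n
      rw [e2] at e6
      have hks : 0 < k ^ s := Real.rpow_pos_of_pos hk0 _
      have hks' : 0 < k ^ (1 - s) := Real.rpow_pos_of_pos hk0 _
      have hes : 0 < e n ^ s := Real.rpow_pos_of_pos (he n) _
      have hms : 0 < (m n : ℝ) ^ s := Real.rpow_pos_of_pos hm0 _
      have e7 : c₀ * k ≤ (k * e n) ^ s * ((∏ i ∈ range n, (m i : ℝ)) * m n) := by
        calc c₀ * k = k ^ s * (c₀ * k ^ (1 - s)) := by
              conv_lhs => rw [e3]
              ring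
          _ ≤ k ^ s * (((∏ i ∈ range n, (m i : ℝ)) * ((m n : ℝ) ^ s * e n ^ s)) * (m n : ℝ) ^ (1 - s)) := by
              apply mul_le_mul_of_nonneg_left _ hks.le
              exact mul_le_mul e6 e5 hks'.le (by positivity)
          _ = (k ^ s * e n ^ s) * ((∏ i ∈ range n, (m i : ℝ)) * ((m n : ℝ) ^ s * (m n : ℝ) ^ (1 - s))) := by ring
          _ = _ := by rw [← e4, ← e1]
      calc 2 * k = 2 / c₀ * (c₀ * k) := by field_simp
        _ ≤ 2 / c₀ * ((k * e n) ^ s * ((∏ i ∈ range n, (m i : ℝ)) * m n)) :=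
            mul_le_mul_of_nonneg_left e7 (by positivity)
        _ = _ := by ring
    refine h1.trans (h3.trans ?_)
    apply mul_le_mul_of_nonneg_left _ (by positivity)
    exact Real.rpow_le_rpow (mul_nonneg (by linarith) (he n).le) h2 hs0.le
  have hinj : Set.InjOn h (Set.Ico (0 : ℝ) 1) := by
    intro y hy y' hy' heq
    have h1 := key y hy y' hy'
    rw [heq, sub_self, abs_zero, Real.zero_rpow hs0.ne', mul_zero] at h1
    exact sub_eq_zero.1 (abs_nonpos_iff.1 h1)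
  obtain ⟨r, hr⟩ : ∃ r : ℝ → ℝ, r = Function.invFunOn h (Set.Ico (0 : ℝ) 1) := ⟨_, rfl⟩
  have hrh : ∀ y ∈ Set.Ico (0 : ℝ) 1, r (h y) = y := fun y hy => by
    rw [hr]
    exact hinj.leftInvOn_invFunOn hy
  have hhol : HolderOnWith (2 / c₀).toNNReal s.toNNReal r (h '' Set.Ico (0 : ℝ) 1) := by
    rintro _ ⟨y, hy, rfl⟩ _ ⟨y', hy', rfl⟩
    rw [hrh y hy, hrh y' hy', edist_dist, edist_dist, Real.dist_eq, Real.dist_eq, Real.coe_toNNReal s hs0.le]
    have h1 := key y hy y' hy'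
    rw [ENNReal.ofReal_rpow_of_nonneg (abs_nonneg _) hs0.le]
    calc ENNReal.ofReal |y - y'| ≤ ENNReal.ofReal (2 / c₀ * |h y - h y'| ^ s) := ENNReal.ofReal_le_ofReal h1
      _ = _ := by rw [ENNReal.ofReal_mul (by positivity)]; rfl
  have himg : r '' (h '' Set.Ico (0 : ℝ) 1) = Set.Ico (0 : ℝ) 1 := by
    ext y
    constructor
    · rintro ⟨_, ⟨z, hz, rfl⟩, rfl⟩
      rw [hrh z hz]
      exact hz
    · intro hy
      exact ⟨h y, ⟨y, hy, rfl⟩, hrh y hy⟩
  have h1 := hhol.dimH_image_le (Real.toNNReal_pos.2 hs0)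
  rw [himg] at h1
  have h2 : dimH (Set.Ico (0 : ℝ) 1) = 1 := by
    have := Real.dimH_of_nonempty_interior (s := Set.Ico (0 : ℝ) 1) (by rw [interior_Ico]; exact ⟨1 / 2, by norm_num⟩)
    rw [this]
    simp
  rw [h2] at h1
  have h3 : (1 : ENNReal) ≤ dimH (Set.range pt) / (s.toNNReal : ENNReal) := by
    refine h1.trans ?_
    apply ENNReal.div_le_div_right
    apply dimH_mono
    rintro _ ⟨y, _, rfl⟩
    rw [hh]
    exact ⟨_, rfl⟩
  have hs' : (s.toNNReal : ENNReal) ≠ 0 := by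
    rw [ENNReal.coe_ne_zero]
    exact (Real.toNNReal_pos.2 hs0).ne'
  rw [ENNReal.le_div_iff_mul_le (Or.inl hs') (Or.inl ENNReal.coe_ne_top), one_mul] at h3
  exact h3

end Pool.Agent.X10.ML
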