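import Pool.Agent.X10.ML.Tree

set_option autoImplicit false

/-! # The dimension of the set of the limit points (helper10) -/

namespace Pool.Agent.X10.ML

open Finset

/-- the loss in the number of children that is allowed -/
noncomputable def eta (c s : ℝ) : ℝ := min (c - 1) 1 * (1 - s) / 4

lemma eta_pos {c s : ℝ} (hc : 1 < c) (hs1 : s < 1) : 0 < eta c s := by
  unfold eta
  have : 0 < min (c - 1) 1 := lt_min (by linarith) one_pos
  have h2 : 0 < 1 - s := by linarith
  positivity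

/-- the product of the numbers of children against the separation -/
lemma weights (c s : ℝ) (hc : 1 < c) (hs0 : 0 < s) (hs1 : s < 1) :
    ∃ X₀ : ℝ, ∀ x : ℝ, X₀ ≤ x → ∃ c₀ : ℝ, 0 < c₀ ∧ ∀ m : ℕ → ℕ,
      (∀ n, x ^ (c ^ n * (c - 1 - eta c s)) / 4 ≤ m n) → ∀ n : ℕ,
        c₀ ≤ (∏ i ∈ range n, (m i : ℝ)) *
          ((m n : ℝ) * (1 / (c ^ (n + 1) * (x + 1) ^ (c ^ (n + 1))))) ^ s := by
  obtain ⟨η, hη⟩ : ∃ η, η = eta c s := ⟨_, rfl⟩
  have hη0 : 0 < η := by rw [hη]; exact eta_pos hc hs1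
  have h1s : 0 < 1 - s := by linarith
  have hc1 : 0 < c - 1 := by linarith
  have hη1 : η ≤ (c - 1) * (1 - s) / 4 := by
    rw [hη, eta]
    have : min (c - 1) 1 ≤ c - 1 := min_le_left _ _
    nlinarith
  have hη2 : η ≤ (1 - s) / 4 := by
    rw [hη, eta]
    have : min (c - 1) 1 ≤ 1 := min_le_right _ _
    nlinarith
  obtain ⟨δ, hδ⟩ : ∃ δ, δ = (1 - s) / (4 * c) := ⟨_, rfl⟩
  have hδ0 : 0 < δ := by rw [hδ]; positivity
  have hcδ : c * δ = (1 - s) / 4 := by rw [hδ]; field_simp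
  obtain ⟨g, hg⟩ : ∃ g, g = (1 - s) / 4 := ⟨_, rfl⟩
  have hg0 : 0 < g := by rw [hg]; positivity
  -- the logarithm is large
  obtain ⟨A₀, hA₀⟩ : ∃ A₀ : ℝ, A₀ = max 1 (max (1 / δ) ((Real.log 4 + Real.log c) / (g * (c - 1)))) :=
    ⟨_, rfl⟩
  refine ⟨Real.exp A₀, fun x hx => ?_⟩
  have hx0 : 0 < x := (Real.exp_pos _).trans_le hx
  obtain ⟨A, hA⟩ : ∃ A, A = Real.log x := ⟨_, rfl⟩
  have hAA : A₀ ≤ A := by rw [hA, Real.le_log_iff_exp_le hx0]; exact hx
  have hA1 : 1 ≤ A := (by rw [hA₀]; exact le_max_left _ _ : (1:ℝ) ≤ A₀).trans hAA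
  have hAδ : 1 ≤ δ * A := by
    have : 1 / δ ≤ A := (by rw [hA₀]; exact (le_max_left _ _).trans (le_max_right _ _) : 1 / δ ≤ A₀).trans hAA
    rw [div_le_iff₀ hδ0] at this
    linarith
  have hAg : Real.log 4 + Real.log c ≤ A * g * (c - 1) := by
    have : (Real.log 4 + Real.log c) / (g * (c - 1)) ≤ A :=
      (by rw [hA₀]; exact (le_max_right _ _).trans (le_max_right _ _) :
        (Real.log 4 + Real.log c) / (g * (c - 1)) ≤ A₀).trans hAA
    rw [div_le_iff₀ (by positivity)] at this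
    linarith
  have hx1 : 1 ≤ x := by
    have : (1 : ℝ) ≤ Real.exp A₀ := Real.one_le_exp (by rw [hA₀]; exact le_trans zero_le_one (le_max_left _ _))
    linarith
  have hlog1 : Real.log (x + 1) ≤ (1 + δ) * A := by
    have e1 : Real.log (x + 1) ≤ Real.log (2 * x) := Real.log_le_log (by linarith) (by linarith)
    rw [Real.log_mul (by norm_num) hx0.ne', ← hA] at e1
    have e2 : Real.log 2 ≤ 1 := by linarith [Real.log_two_lt_d9]
    linarith
  have hlc : 0 ≤ Real.log c := Real.log_nonneg hc.le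
  refine ⟨Real.exp (-A - Real.log 4 - Real.log c), Real.exp_pos _, ?_⟩
  intro m hm n
  rw [← hη] at hm
  have hmpos : ∀ i, (0 : ℝ) < m i := fun i => lt_of_lt_of_le (by positivity) (hm i)
  have hmlog : ∀ i, A * (c ^ i * (c - 1 - η)) - Real.log 4 ≤ Real.log (m i) := by
    intro i
    have e1 := Real.log_le_log (by positivity) (hm i)
    rw [Real.log_div (by positivity) (by norm_num), Real.log_rpow hx0, ← hA] at e1
    linarith
  have hprodlog : A * ((c - 1 - η) * ((c ^ n - 1) / (c - 1))) - n * Real.log 4 ≤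
      Real.log (∏ i ∈ range n, (m i : ℝ)) := by
    rw [Real.log_prod (fun i _ => (hmpos i).ne')]
    have e1 : ∑ i ∈ range n, (A * (c ^ i * (c - 1 - η)) - Real.log 4) =
        A * ((c - 1 - η) * ((c ^ n - 1) / (c - 1))) - n * Real.log 4 := by
      rw [sum_sub_distrib, sum_const, card_range, nsmul_eq_mul, ← mul_sum, ← sum_mul,
        geom_sum_eq hc.ne']
      ring
    rw [← e1]
    exact sum_le_sum fun i _ => hmlog i
  obtain ⟨C, hC⟩ : ∃ C : ℝ, C = c ^ (n + 1) := ⟨_, rfl⟩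
  have hC0 : 0 < C := by rw [hC]; positivity
  have hlast : A * (c ^ n * (c - 1 - η)) - Real.log 4 - (n + 1) * Real.log c - C * ((1 + δ) * A) ≤
      Real.log ((m n : ℝ) * (1 / (C * (x + 1) ^ C))) := by
    rw [Real.log_mul (hmpos n).ne' (by positivity), one_div, Real.log_inv,
      Real.log_mul hC0.ne' (by positivity), Real.log_rpow (by positivity)]
    have e1 : Real.log C = (n + 1) * Real.log c := by
      rw [hC, Real.log_pow]; push_cast; ring
    rw [e1]
    have e2 : C * Real.log (x + 1) ≤ C * ((1 + δ) * A) := mul_le_mul_of_nonneg_left hlog1 hC0.le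
    have e3 := hmlog n
    linarith
  have hPpos : (0 : ℝ) < ∏ i ∈ range n, (m i : ℝ) := prod_pos fun i _ => hmpos i
  have hQpos : 0 < (m n : ℝ) * (1 / (C * (x + 1) ^ C)) := by
    have := hmpos n
    positivity
  rw [← hC, ← Real.le_log_iff_exp_le (by positivity), Real.log_mul hPpos.ne' (by positivity),
    Real.log_rpow hQpos]
  have hs' := mul_le_mul_of_nonneg_left hlast hs0.le
  -- the main inequality
  obtain ⟨K, hK⟩ : ∃ K : ℝ, K = c ^ n := ⟨_, rfl⟩
  have hCK : C = c * K := by rw [hC, hK, pow_succ]; ring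
  have hK1 : 1 + n * (c - 1) ≤ K := by
    rw [hK]
    have := one_add_mul_le_pow (a := c - 1) (by linarith) n
    simpa [add_sub_cancel] using this
  rw [← hK] at hprodlog hs'
  rw [hCK] at hs'
  have hdiv : (c - 1 - η) * ((K - 1) / (c - 1)) = (K - 1) - η * (K - 1) / (c - 1) := by
    field_simp
  rw [hdiv] at hprodlog
  have hηK : η * (K - 1) / (c - 1) ≤ (1 - s) / 4 * (K - 1) := by
    rw [div_le_iff₀ hc1]
    have : 0 ≤ K - 1 := by nlinarith [mul_nonneg (Nat.cast_nonneg n : (0:ℝ) ≤ n) hc1.le]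
    nlinarith
  have hn0 : (0 : ℝ) ≤ n := Nat.cast_nonneg n
  have hl4 : 0 ≤ Real.log 4 := Real.log_nonneg (by norm_num)
  have hKpos : 0 ≤ K - 1 := by nlinarith [mul_nonneg hn0 hc1.le]
  have f1 : A * ((K - 1) - (1 - s) / 4 * (K - 1)) - n * Real.log 4 ≤
      Real.log (∏ i ∈ range n, (m i : ℝ)) := by
    refine le_trans ?_ hprodlog
    have : A * ((K - 1) - (1 - s) / 4 * (K - 1)) ≤ A * ((K - 1) - η * (K - 1) / (c - 1)) :=
      mul_le_mul_of_nonneg_left (by linarith) (by linarith)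
    linarith
  have f2 : A * (K * (c - 1 - η)) - Real.log 4 - (n + 1) * Real.log c - c * K * ((1 + δ) * A) =
      - (A * K * (1 + η + c * δ)) - Real.log 4 - (n + 1) * Real.log c := by ring
  rw [f2, hcδ, ← hCK] at hs'
  have f3 : A * K * (1 + η + (1 - s) / 4) ≤ A * K * (1 + (1 - s) / 2) := by
    apply mul_le_mul_of_nonneg_left (by linarith)
    have : 0 ≤ K := by linarith
    positivity
  have f4 : s * (A * K * (1 + η + (1 - s) / 4)) ≤ s * (A * K * (1 + (1 - s) / 2)) :=
    mul_le_mul_of_nonneg_left f3 hs0.le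
  have f5 : s * (Real.log 4 + (n + 1) * Real.log c) ≤ Real.log 4 + (n + 1) * Real.log c := by
    have : 0 ≤ Real.log 4 + (n + 1) * Real.log c := by positivity
    nlinarith
  -- the sum
  have f6 : A * g * (n * (c - 1)) ≤ A * g * (K - 1) :=
    mul_le_mul_of_nonneg_left (by linarith) (by positivity)
  have f7 : n * (Real.log 4 + Real.log c) ≤ n * (A * g * (c - 1)) :=
    mul_le_mul_of_nonneg_left hAg hn0
  have f8 : A * K * (1 - s) * (1 - s) ≥ 0 := by
    have : 0 ≤ K := by linarith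
    positivity
  have f9 : A * ((K - 1) - (1 - s) / 4 * (K - 1)) - s * (A * K * (1 + (1 - s) / 2)) ≥
      A * g * (K - 1) - A := by
    rw [hg]
    have hAK : 0 ≤ A * K := by
      have : 0 ≤ K := by linarith
      positivity
    nlinarith [mul_nonneg hAK (mul_nonneg h1s.le h1s.le), mul_nonneg hAK h1s.le,
      mul_nonneg (by linarith : (0:ℝ) ≤ A) h1s.le]
  linarith

end Pool.Agent.X10.ML
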