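import Pool.Agent.X10.ML.Main
import Pool.Agent.X10.ML.Blocks
import Pool.Agent.H295R3.Hoheisel
import Pool.Agent.Results.MP_3bc45c_nt.RecordGapsAtPrescribedPlaces

set_option autoImplicit false

/-! # Primes before record gaps and before short gaps, in short intervals (helper10) -/

namespace Pool.Agent.X10.ML

open Finset Filter

/-- a prime before a record gap -/
def Rec (κ : ℝ) (p : ℕ) : Prop :=
  p.Prime ∧ ∀ q : ℕ, q.Prime → p < q → (p : ℝ) + κ * Fr (Real.log p) ≤ q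

/-- a prime before a gap of the average order -/
def Small (C : ℝ) (p : ℕ) : Prop :=
  p.Prime ∧ ∃ q : ℕ, q.Prime ∧ p < q ∧ (q : ℝ) ≤ p + C * Real.log p

/-- the centres of record gaps -/
lemma centres : ∃ c₁ : ℝ, 0 < c₁ ∧ ∃ x₀ : ℝ, ∀ x : ℝ, x₀ ≤ x → ∀ z : ℕ, ∃ n : ℕ, z < n ∧
    (n : ℝ) ≤ z + x ∧ ∀ p : ℕ, p.Prime → c₁ * Fr (Real.log x) < |(p : ℝ) - n| := by
  obtain ⟨c₁, hc₁, x₀, h⟩ := Pool.Agent.Results.MP_3bc45c_nt.RecordGapsAtPrescribedPlaces.result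
    (1 / 2) 0 (by norm_num) (by norm_num) le_rfl
  refine ⟨c₁, hc₁, max x₀ 1, fun x hx z => ?_⟩
  obtain ⟨n, -, hn1, hn2, hn3⟩ := h x ((le_max_left _ _).trans hx) 1 le_rfl (by
    push_cast
    exact Real.one_le_rpow ((le_max_right _ _).trans hx) (by norm_num)) (by simp) 0 z
  refine ⟨n, hn1, hn2, fun p hp => ?_⟩
  have := hn3 p hp
  simpa [Fr] using this

/-- Hoheisel's theorem in the form used here -/
lemma hoh : ∃ δ η : ℝ, 0 < δ ∧ δ < 1 ∧ 0 < η ∧ ∃ X₀ : ℝ, ∀ X : ℕ, ∀ Y : ℕ, X₀ ≤ X →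
    (X : ℝ) ^ (1 - δ) ≤ Y → Y ≤ X →
    η * Y / Real.log X ≤ (((Ioc X (X + Y)).filter Nat.Prime).card : ℝ) := by
  obtain ⟨δ, η, h1, h2, h3, X₀, -, h4⟩ := Pool.Agent.H295R3.D.hoheisel
  exact ⟨δ, η, h1, h2, h3, X₀, fun X Y hX hY hYX => h4 X Y (by exact_mod_cast hX) hY hYX⟩

/-- comparison of powers -/
lemma ev_pow {u v : ℝ} (K : ℝ) (h : u < v) : ∀ᶠ x : ℝ in atTop, K * x ^ u ≤ x ^ v := by
  filter_upwards [(tendsto_rpow_atTop (by linarith : 0 < v - u)).eventually_ge_atTop K,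
    eventually_gt_atTop 0] with x hx hx0
  calc K * x ^ u ≤ x ^ (v - u) * x ^ u := mul_le_mul_of_nonneg_right hx (Real.rpow_nonneg hx0.le _)
    _ = x ^ v := by rw [← Real.rpow_add hx0]; congr 1; ring

/-- **Primes before record gaps in the intervals `[x ^ c, x ^ c + x ^ (c - 1)]`.** -/
lemma count_rec : ∃ c₀ : ℝ, 1 < c₀ ∧ ∀ c : ℝ, c₀ ≤ c → ∀ η : ℝ, 0 < η → η ≤ (c - 1) / 2 →
    ∃ κ : ℝ, 0 < κ ∧ ∃ x₁ : ℝ, ∀ x : ℕ, x₁ ≤ x → ∃ T : Finset ℕ,
      (∀ y ∈ T, Rec κ y ∧ (x : ℝ) ^ c ≤ y ∧ (y : ℝ) ≤ (x : ℝ) ^ c + (x : ℝ) ^ (c - 1)) ∧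
      (x : ℝ) ^ (c - 1 - η) ≤ T.card := by
  classical
  obtain ⟨δ, η₁, hδ, hδ1, hη₁, X₀, hH⟩ := hoh
  obtain ⟨c₁, hc₁, x₀, hcen⟩ := centres
  refine ⟨2 / δ, by rw [lt_div_iff₀ hδ]; linarith, fun c hc η hη hηc => ?_⟩
  have hcδ : 2 ≤ c * δ := by rw [div_le_iff₀ hδ] at hc; exact hc
  have hc1 : 2 < c := by nlinarith
  obtain ⟨a, ha⟩ : ∃ a, a = η / (2 * c) := ⟨_, rfl⟩
  have ha0 : 0 < a := by rw [ha]; positivity
  have hca : c * a = η / 2 := by rw [ha]; field_simp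
  have ha1 : a ≤ 1 := by nlinarith
  obtain ⟨L₀, hL₀⟩ := Fr_comp (a / 2) (by linarith)
  refine ⟨c₁ * (a / 2 / 8), by positivity, ?_⟩
  -- the large `x`
  have ev : ∀ᶠ x : ℝ in atTop, 1 ≤ x ∧ 16 * x ^ (c * a) ≤ x ^ (c - 1) ∧
      8 * x ^ (c * (1 - δ)) ≤ x ^ (c - 1) ∧ 704 / (η₁ * a) ≤ x ^ (c * a) ∧ 2 ≤ x ^ (c * a) ∧
      x₀ ≤ x ^ (c * a) ∧ X₀ ≤ x ^ c ∧ 2 ≤ x ^ c ∧ L₀ ≤ Real.log (x ^ c) ∧ 8 ≤ x ^ (c - 1) := by
    have t1 := tendsto_rpow_atTop (by positivity : 0 < c * a)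
    have t2 := tendsto_rpow_atTop (by linarith : 0 < c)
    have t3 := tendsto_rpow_atTop (by linarith : 0 < c - 1)
    filter_upwards [eventually_ge_atTop 1, ev_pow (u := c * a) (v := c - 1) 16 (by rw [hca]; linarith),
      ev_pow (u := c * (1 - δ)) (v := c - 1) 8 (by nlinarith), t1.eventually_ge_atTop (704 / (η₁ * a)),
      t1.eventually_ge_atTop 2, t1.eventually_ge_atTop x₀, t2.eventually_ge_atTop X₀,
      t2.eventually_ge_atTop 2, (Real.tendsto_log_atTop.comp t2).eventually_ge_atTop L₀,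
      t3.eventually_ge_atTop 8] with x b1 b2 b3 b4 b5 b6 b7 b8 b9 b10
    exact ⟨b1, b2, b3, b4, b5, b6, b7, b8, b9, b10⟩
  obtain ⟨x₁, hx₁⟩ := eventually_atTop.1 ev
  refine ⟨x₁, fun x hx => ?_⟩
  obtain ⟨b1, b2, b3, b4, b5, b6, b7, b8, b9, b10⟩ := hx₁ x hx
  have hx0 : (0 : ℝ) < x := by linarith
  obtain ⟨X, hX⟩ : ∃ X : ℝ, X = (x : ℝ) ^ c := ⟨_, rfl⟩
  obtain ⟨Y, hY⟩ : ∃ Y : ℝ, Y = (x : ℝ) ^ (c - 1) := ⟨_, rfl⟩
  have hXa : (x : ℝ) ^ (c * a) = X ^ a := by rw [hX, ← Real.rpow_mul hx0.le]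
  have hXd : (x : ℝ) ^ (c * (1 - δ)) = X ^ (1 - δ) := by rw [hX, ← Real.rpow_mul hx0.le]
  rw [hXa] at b2 b4 b5 b6
  rw [hXd] at b3
  rw [← hX] at b7 b8 b9 ⊢
  rw [← hY] at b2 b3 b10 ⊢
  have hX0 : 0 < X := by linarith
  have hYX : Y ≤ X := by
    rw [hX, hY]
    exact Real.rpow_le_rpow_of_exponent_le b1 (by linarith)
  obtain ⟨X', hX'⟩ : ∃ X' : ℕ, X' = ⌈X⌉₊ := ⟨_, rfl⟩
  have k1 : X ≤ X' := by rw [hX']; exact Nat.le_ceil _
  have k2 : (X' : ℝ) < X + 1 := by rw [hX']; exact Nat.ceil_lt_add_one hX0.le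
  obtain ⟨B, hB⟩ : ∃ B : ℕ, B = ⌈X ^ a⌉₊ := ⟨_, rfl⟩
  have k3 : X ^ a ≤ B := by rw [hB]; exact Nat.le_ceil _
  have k4 : (B : ℝ) < X ^ a + 1 := by rw [hB]; exact Nat.ceil_lt_add_one (by positivity)
  have hB2 : 2 ≤ B := by
    have : (2 : ℝ) ≤ B := b5.trans k3
    exact_mod_cast this
  have hBr : (2 : ℝ) ≤ B := by exact_mod_cast hB2
  obtain ⟨M, hM⟩ : ∃ M : ℕ, M = ⌊Y / (2 * B)⌋₊ := ⟨_, rfl⟩
  have k5 : (M : ℝ) * B ≤ Y / 2 := by
    have : (M : ℝ) ≤ Y / (2 * B) := by rw [hM]; exact Nat.floor_le (by positivity)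
    rw [le_div_iff₀ (by positivity)] at this
    linarith
  have k6 : Y / 4 ≤ (M : ℝ) * B := by
    have : Y / (2 * B) < M + 1 := by rw [hM]; exact Nat.lt_floor_add_one _
    rw [div_lt_iff₀ (by positivity)] at this
    nlinarith
  -- primes in the interval
  have hK : η₁ * (M * B : ℕ) / Real.log X' ≤ (((Ioc X' (X' + M * B)).filter Nat.Prime).card : ℝ) := by
    apply hH X' (M * B) (b7.trans k1)
    · push_cast
      refine le_trans ?_ k6
      have e1 : (X' : ℝ) ^ (1 - δ) ≤ (2 * X) ^ (1 - δ) :=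
        Real.rpow_le_rpow (by positivity) (by linarith) (by linarith)
      have e2 : (2 * X) ^ (1 - δ) = 2 ^ (1 - δ) * X ^ (1 - δ) := Real.mul_rpow (by norm_num) hX0.le
      have e3 : (2 : ℝ) ^ (1 - δ) ≤ 2 := by
        have := Real.rpow_le_rpow_of_exponent_le (by norm_num : (1 : ℝ) ≤ 2) (by linarith : 1 - δ ≤ 1)
        simpa using this
      have e4 : 0 < X ^ (1 - δ) := by positivity
      nlinarith
    · have : ((M * B : ℕ) : ℝ) ≤ X' := by push_cast; linarith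
      exact_mod_cast this
  -- blocks
  obtain ⟨T, hT1, hT2⟩ := blocks X' B M (c₁ * Fr (Real.log (X ^ a))) hB2 (by
    intro z
    obtain ⟨n, n1, n2, n3⟩ := hcen (X ^ a) b6 z
    refine ⟨n, n1, ?_, n3⟩
    have : (n : ℝ) ≤ z + B := by linarith
    exact_mod_cast this)
  have hlogX : 0 < Real.log X := Real.log_pos (by linarith)
  refine ⟨T, fun p hp => ?_, ?_⟩
  · obtain ⟨p1, p2, p3, p4⟩ := hT1 p hp
    have p1r : (X' : ℝ) < p := by exact_mod_cast p1
    have p2r : (p : ℝ) ≤ X' + (M + 1) * B := by exact_mod_cast p2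
    have hXp : X ≤ p := by linarith
    have hpXY : (p : ℝ) ≤ X + Y := by nlinarith
    refine ⟨⟨p3, fun q hq hlt => ?_⟩, hXp, hpXY⟩
    have h1 := p4 q hq hlt
    have hL : Real.log X ≤ Real.log p := Real.log_le_log hX0 hXp
    have hL2 : Real.log p ≤ 2 * Real.log X := by
      have e1 : Real.log p ≤ Real.log (X * X) := Real.log_le_log (by linarith) (by nlinarith)
      rw [Real.log_mul hX0.ne' hX0.ne'] at e1
      linarith
    have hla : Real.log (X ^ a) = a * Real.log X := Real.log_rpow hX0 a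
    have h2 := (hL₀ (Real.log p) (Real.log (X ^ a)) (b9.trans hL) (by rw [hla]; nlinarith)
      (by rw [hla]; nlinarith)).1
    have h3 : c₁ * (a / 2 / 8) * Fr (Real.log p) ≤ c₁ * Fr (Real.log (X ^ a)) := by
      rw [mul_assoc]
      exact mul_le_mul_of_nonneg_left h2 hc₁.le
    linarith
  · -- the count
    have e1 : η₁ * (M * B : ℕ) / Real.log X' ≤ 44 * B / Real.log B * T.card := hK.trans hT2
    have hlogB : a * Real.log X ≤ Real.log B := by
      rw [← Real.log_rpow hX0]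
      exact Real.log_le_log (by positivity) k3
    have hlogB0 : 0 < Real.log B := lt_of_lt_of_le (by positivity) hlogB
    have hlogX' : Real.log X' ≤ 2 * Real.log X := by
      have e1 : Real.log X' ≤ Real.log (X * X) := Real.log_le_log (by linarith) (by nlinarith)
      rw [Real.log_mul hX0.ne' hX0.ne'] at e1
      linarith
    have hlogX'0 : 0 < Real.log X' := Real.log_pos (by linarith)
    have e2 : η₁ * (Y / 4) / (2 * Real.log X) ≤ η₁ * (M * B : ℕ) / Real.log X' := by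
      push_cast
      gcongr
    have e3 : 44 * B / Real.log B * T.card ≤ 44 * (2 * X ^ a) / (a * Real.log X) * T.card := by
      have : (B : ℝ) ≤ 2 * X ^ a := by linarith
      gcongr
    have e4 := e2.trans (e1.trans e3)
    -- multiply out
    have e5 : η₁ * a * Y ≤ 704 * X ^ a * T.card := by
      rw [show 44 * (2 * X ^ a) / (a * Real.log X) * (T.card : ℝ) =
        (88 * X ^ a * T.card) / (a * Real.log X) by ring,
        div_le_div_iff₀ (by positivity) (by positivity)] at e4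
      have : η₁ * (Y / 4) * (a * Real.log X) = (η₁ * a * Y / 4) * Real.log X := by ring
      rw [this] at e4
      have : 88 * X ^ a * (T.card : ℝ) * (2 * Real.log X) = (176 * X ^ a * T.card) * Real.log X := by ring
      rw [this] at e4
      have := le_of_mul_le_mul_right e4 hlogX
      linarith
    have e6 : 704 ≤ X ^ a * (η₁ * a) := by
      rw [div_le_iff₀ (by positivity)] at b4
      exact b4
    have e7 : Y ≤ X ^ a * X ^ a * T.card := by
      have h1 : 0 < η₁ * a := by positivity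
      have h2 : η₁ * a * Y ≤ η₁ * a * (X ^ a * X ^ a * T.card) := by
        calc η₁ * a * Y ≤ 704 * X ^ a * T.card := e5
          _ ≤ (X ^ a * (η₁ * a)) * X ^ a * T.card := by gcongr
          _ = _ := by ring
      exact le_of_mul_le_mul_left h2 h1
    have e8 : (x : ℝ) ^ (c - 1 - η) * (X ^ a * X ^ a) = Y := by
      rw [← hXa, hY, ← Real.rpow_add hx0, ← Real.rpow_add hx0]
      congr 1
      rw [hca]; ring
    have e9 : (x : ℝ) ^ (c - 1 - η) * (X ^ a * X ^ a) ≤ T.card * (X ^ a * X ^ a) := by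
      rw [e8]; linarith
    exact le_of_mul_le_mul_right e9 (by positivity)

/-- **Primes before short gaps in the intervals `[x ^ c, x ^ c + x ^ (c - 1)]`.** -/
lemma count_small : ∃ c₀ C : ℝ, 1 < c₀ ∧ 0 < C ∧ ∀ c : ℝ, c₀ ≤ c → ∀ η : ℝ, 0 < η → η ≤ (c - 1) / 2 →
    ∃ x₁ : ℝ, ∀ x : ℕ, x₁ ≤ x → ∃ T : Finset ℕ,
      (∀ y ∈ T, Small C y ∧ (x : ℝ) ^ c ≤ y ∧ (y : ℝ) ≤ (x : ℝ) ^ c + (x : ℝ) ^ (c - 1)) ∧
      (x : ℝ) ^ (c - 1 - η) ≤ T.card := by
  classical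
  obtain ⟨δ, η₁, hδ, hδ1, hη₁, X₀, hH⟩ := hoh
  refine ⟨2 / δ, 4 / η₁, by rw [lt_div_iff₀ hδ]; linarith, by positivity, fun c hc η hη hηc => ?_⟩
  have hcδ : 2 ≤ c * δ := by rw [div_le_iff₀ hδ] at hc; exact hc
  have hc1 : 2 < c := by nlinarith
  have ev : ∀ᶠ x : ℝ in atTop, 1 ≤ x ∧ 8 * x ^ (c * (1 - δ)) ≤ x ^ (c - 1) ∧ X₀ ≤ x ^ c ∧
      2 ≤ x ^ c ∧ 8 ≤ x ^ (c - 1) ∧ 32 / η₁ * Real.log (x ^ c) ≤ x ^ (c - 1) ∧
      64 / η₁ * Real.log (x ^ c) ≤ x ^ η := by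
    have t2 := tendsto_rpow_atTop (by linarith : 0 < c)
    have t3 := tendsto_rpow_atTop (by linarith : 0 < c - 1)
    have lg : ∀ u K : ℝ, 0 < u → 0 < K → ∀ᶠ x : ℝ in atTop, K * Real.log (x ^ c) ≤ x ^ u := by
      intro u K hu hK
      have h1 := (isLittleO_log_rpow_atTop hu).def (by positivity : 0 < 1 / (K * c))
      filter_upwards [h1, eventually_ge_atTop 1] with x hx hx1
      rw [Real.log_rpow (by linarith)]
      rw [Real.norm_of_nonneg (Real.log_nonneg hx1), Real.norm_of_nonneg (by positivity)] at hx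
      calc K * (c * Real.log x) = K * c * Real.log x := by ring
        _ ≤ K * c * (1 / (K * c) * x ^ u) := mul_le_mul_of_nonneg_left hx (by positivity)
        _ = x ^ u := by field_simp
    filter_upwards [eventually_ge_atTop 1, ev_pow (u := c * (1 - δ)) (v := c - 1) 8 (by nlinarith),
      t2.eventually_ge_atTop X₀, t2.eventually_ge_atTop 2, t3.eventually_ge_atTop 8,
      lg (c - 1) (32 / η₁) (by linarith) (by positivity),
      lg η (64 / η₁) hη (by positivity)] with x b1 b2 b3 b4 b5 b6 b7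
    exact ⟨b1, b2, b3, b4, b5, b6, b7⟩
  obtain ⟨x₁, hx₁⟩ := eventually_atTop.1 ev
  refine ⟨x₁, fun x hx => ?_⟩
  obtain ⟨b1, b3, b7, b8, b10, b11, b12⟩ := hx₁ x hx
  have hx0 : (0 : ℝ) < x := by linarith
  obtain ⟨X, hX⟩ : ∃ X : ℝ, X = (x : ℝ) ^ c := ⟨_, rfl⟩
  obtain ⟨Y, hY⟩ : ∃ Y : ℝ, Y = (x : ℝ) ^ (c - 1) := ⟨_, rfl⟩
  have hXd : (x : ℝ) ^ (c * (1 - δ)) = X ^ (1 - δ) := by rw [hX, ← Real.rpow_mul hx0.le]
  rw [hXd] at b3
  rw [← hX] at b7 b8 b11 b12 ⊢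
  rw [← hY] at b3 b10 b11 ⊢
  have hX0 : 0 < X := by linarith
  have hYX : Y ≤ X := by
    rw [hX, hY]
    exact Real.rpow_le_rpow_of_exponent_le b1 (by linarith)
  obtain ⟨X', hX'⟩ : ∃ X' : ℕ, X' = ⌈X⌉₊ := ⟨_, rfl⟩
  have k1 : X ≤ X' := by rw [hX']; exact Nat.le_ceil _
  have k2 : (X' : ℝ) < X + 1 := by rw [hX']; exact Nat.ceil_lt_add_one hX0.le
  obtain ⟨M, hM⟩ : ∃ M : ℕ, M = ⌊Y / 2⌋₊ := ⟨_, rfl⟩
  have k5 : (M : ℝ) ≤ Y / 2 := by rw [hM]; exact Nat.floor_le (by positivity)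
  have k6 : Y / 4 ≤ (M : ℝ) := by
    have : Y / 2 < M + 1 := by rw [hM]; exact Nat.lt_floor_add_one _
    linarith
  have hlogX : 0 < Real.log X := Real.log_pos (by linarith)
  have hlogX' : Real.log X' ≤ 2 * Real.log X := by
    have e1 : Real.log X' ≤ Real.log (X * X) := Real.log_le_log (by linarith) (by nlinarith)
    rw [Real.log_mul hX0.ne' hX0.ne'] at e1
    linarith
  have hlogX'0 : 0 < Real.log X' := Real.log_pos (by linarith)
  have hK : η₁ * M / Real.log X' ≤ (((Ioc X' (X' + M)).filter Nat.Prime).card : ℝ) := by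
    apply hH X' M (b7.trans k1)
    · refine le_trans ?_ k6
      have e1 : (X' : ℝ) ^ (1 - δ) ≤ (2 * X) ^ (1 - δ) :=
        Real.rpow_le_rpow (by positivity) (by linarith) (by linarith)
      have e2 : (2 * X) ^ (1 - δ) = 2 ^ (1 - δ) * X ^ (1 - δ) := Real.mul_rpow (by norm_num) hX0.le
      have e3 : (2 : ℝ) ^ (1 - δ) ≤ 2 := by
        have := Real.rpow_le_rpow_of_exponent_le (by norm_num : (1 : ℝ) ≤ 2) (by linarith : 1 - δ ≤ 1)
        simpa using this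
      have e4 : 0 < X ^ (1 - δ) := by positivity
      nlinarith
    · have : (M : ℝ) ≤ X' := by linarith
      exact_mod_cast this
  obtain ⟨P, hP⟩ : ∃ P, P = (Ioc X' (X' + M)).filter Nat.Prime := ⟨_, rfl⟩
  rw [← hP] at hK
  have hPm : ∀ p ∈ P, X' < p ∧ p ≤ X' + M ∧ p.Prime := by
    intro p hp
    rw [hP, mem_filter, mem_Ioc] at hp
    exact ⟨hp.1.1, hp.1.2, hp.2⟩
  have hcov : P = P.filter (Small (4 / η₁)) ∪ P.filter (fun p => ¬ Small (4 / η₁) p) :=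
    (filter_union_filter_not_eq _ _).symm
  -- the bad primes
  have hbad : ((P.filter (fun p => ¬ Small (4 / η₁) p)).card : ℝ) ≤ M / (4 / η₁ * Real.log X) + 1 := by
    apply few_long X' M _ (by positivity)
    intro p hp
    rw [mem_filter] at hp
    obtain ⟨hp1, hp2⟩ := hp
    obtain ⟨p1, p2, p3⟩ := hPm p hp1
    refine ⟨p1, p2, p3, fun q hq hlt => ?_⟩
    by_contra hcon
    push Not at hcon
    apply hp2
    refine ⟨p3, q, hq, hlt, ?_⟩
    have h1 : (X' : ℝ) < p := by exact_mod_cast p1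
    have h2 : Real.log X ≤ Real.log p := Real.log_le_log hX0 (by linarith)
    have h3 : 4 / η₁ * Real.log X ≤ 4 / η₁ * Real.log p := mul_le_mul_of_nonneg_left h2 (by positivity)
    linarith
  have hcard : (P.card : ℝ) ≤ ((P.filter (Small (4 / η₁))).card : ℝ) +
      ((P.filter (fun p => ¬ Small (4 / η₁) p)).card : ℝ) := by
    have := card_union_le (P.filter (Small (4 / η₁))) (P.filter (fun p => ¬ Small (4 / η₁) p))
    rw [← hcov] at this
    exact_mod_cast this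
  refine ⟨P.filter (Small (4 / η₁)), fun p hp => ?_, ?_⟩
  · rw [mem_filter] at hp
    obtain ⟨p1, p2, p3⟩ := hPm p hp.1
    have h1 : (X' : ℝ) < p := by exact_mod_cast p1
    have h2 : (p : ℝ) ≤ X' + M := by exact_mod_cast p2
    exact ⟨hp.2, by linarith, by linarith⟩
  · have e1 : η₁ * M / (2 * Real.log X) ≤ η₁ * M / Real.log X' := by gcongr
    have e2 : (M : ℝ) / (4 / η₁ * Real.log X) = η₁ * M / (4 * Real.log X) := by
      field_simp
    rw [e2] at hbad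
    have e3 : η₁ * M / (2 * Real.log X) = η₁ * M / (4 * Real.log X) + η₁ * M / (4 * Real.log X) := by
      field_simp; ring
    have e4 : η₁ * (Y / 4) / (4 * Real.log X) ≤ η₁ * M / (4 * Real.log X) := by gcongr
    have e5 : 2 ≤ η₁ * (Y / 4) / (4 * Real.log X) := by
      rw [le_div_iff₀ (by positivity)]
      have : 32 / η₁ * Real.log X * η₁ ≤ Y * η₁ := mul_le_mul_of_nonneg_right b11 hη₁.le
      have e : 32 / η₁ * Real.log X * η₁ = 32 * Real.log X := by field_simp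
      rw [e] at this
      linarith
    have e6 : (x : ℝ) ^ (c - 1 - η) * (x : ℝ) ^ η = Y := by
      rw [hY, ← Real.rpow_add hx0]
      congr 1
      ring
    have e7 : (x : ℝ) ^ (c - 1 - η) * (64 / η₁ * Real.log X) ≤ Y := by
      rw [← e6]
      exact mul_le_mul_of_nonneg_left b12 (by positivity)
    have e8 : (x : ℝ) ^ (c - 1 - η) ≤ η₁ * (Y / 4) / (4 * Real.log X) / 2 := by
      have : η₁ * (Y / 4) / (4 * Real.log X) / 2 = Y / (32 / η₁ * Real.log X) := by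
        field_simp
        ring
      rw [this, le_div_iff₀ (by positivity)]
      refine le_trans ?_ e7
      apply mul_le_mul_of_nonneg_left _ (by positivity)
      apply mul_le_mul_of_nonneg_right _ hlogX.le
      apply div_le_div_of_nonneg_right (by norm_num) hη₁.le
    linarith

end Pool.Agent.X10.ML
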