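import Pool.Agent.X10.ML.Main

set_option autoImplicit false

/-! # Mills-type theorem for sets that meet all very short intervals (helper10) -/

namespace Pool.Agent.X10.ML

open Finset Filter

/-- comparison of powers -/
lemma ev_pow' {u v : ℝ} (K : ℝ) (h : u < v) : ∀ᶠ x : ℝ in atTop, K * x ^ u ≤ x ^ v := by
  filter_upwards [(tendsto_rpow_atTop (by linarith : 0 < v - u)).eventually_ge_atTop K,
    eventually_gt_atTop 0] with x hx hx0
  calc K * x ^ u ≤ x ^ (v - u) * x ^ u := mul_le_mul_of_nonneg_right hx (Real.rpow_nonneg hx0.le _)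
    _ = x ^ v := by rw [← Real.rpow_add hx0]; congr 1; ring

lemma eta_le {c s : ℝ} (hc : 1 < c) (hs0 : 0 < s) (hs1 : s < 1) : eta c s ≤ (c - 1) / 4 := by
  rw [eta]
  have e1 : min (c - 1) 1 ≤ c - 1 := min_le_left _ _
  have e2 : 0 < min (c - 1) 1 := lt_min (by linarith) one_pos
  nlinarith

/-- **Mills-type theorem for sets that meet all very short intervals.** -/
theorem mills_dense (c s : ℝ) (hc : 1 < c) (hs0 : 0 < s) (hs1 : s < 1) (G : ℕ → Set ℕ)
    (hG : ∀ ϑ : ℝ, 1 < ϑ → ∃ n₁ : ℕ, ∀ n : ℕ, n₁ ≤ n → ∀ X : ℝ, ϑ ^ (c ^ n) ≤ X → ∀ z : ℕ,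
      X ≤ z → (z : ℝ) ≤ 3 * X → ∃ m ∈ G n, z < m ∧ (m : ℝ) ≤ z + X ^ (eta c s / (2 * c)))
    (U : Set ℝ) (hU : IsOpen U) (hne : (U ∩ Set.Ioi 1).Nonempty) :
    ENNReal.ofReal s ≤ dimH {θ : ℝ | θ ∈ U ∧ 1 < θ ∧ ∃ N : ℕ, ∀ n : ℕ, N ≤ n →
      ⌊θ ^ (c ^ n)⌋₊ ∈ G n} := by
  classical
  obtain ⟨η, hη⟩ : ∃ η, η = eta c s := ⟨_, rfl⟩
  have hη0 : 0 < η := by rw [hη]; exact eta_pos hc hs1
  have hηc : η ≤ (c - 1) / 4 := by rw [hη]; exact eta_le hc hs0 hs1
  rw [← hη] at hG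
  obtain ⟨a, ha⟩ : ∃ a, a = η / (2 * c) := ⟨_, rfl⟩
  rw [← ha] at hG
  have hc0 : 0 < c := by linarith
  have ha0 : 0 < a := by rw [ha]; positivity
  have hca : c * a = η / 2 := by rw [ha]; field_simp
  have ev : ∀ᶠ x : ℝ in atTop, 1 ≤ x ∧ 16 * x ^ (c * a) ≤ x ^ (c - 1) ∧ 8 ≤ x ^ (c * a) ∧
      2 ≤ x ^ c ∧ 8 ≤ x ^ (c - 1) := by
    have t1 := tendsto_rpow_atTop (by positivity : 0 < c * a)
    have t2 := tendsto_rpow_atTop (by linarith : 0 < c)
    have t3 := tendsto_rpow_atTop (by linarith : 0 < c - 1)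
    filter_upwards [eventually_ge_atTop 1, ev_pow' (u := c * a) (v := c - 1) 16 (by rw [hca]; linarith),
      t1.eventually_ge_atTop 8, t2.eventually_ge_atTop 2,
      t3.eventually_ge_atTop 8] with x b1 b2 b3 b5 b6
    exact ⟨b1, b2, b3, b5, b6⟩
  obtain ⟨x₁, hx₁⟩ := eventually_atTop.1 ev
  apply mills_gen c s hc hs0 hs1 G _ U hU hne
  intro ϑ hϑ
  obtain ⟨n₁, hG⟩ := hG ϑ hϑ
  have t0 : Tendsto (fun n : ℕ => ϑ ^ (c ^ n)) atTop atTop := by
    have t1 : Tendsto (fun N : ℕ => c ^ N) atTop atTop := tendsto_pow_atTop_atTop_of_one_lt hc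
    have e1 : Tendsto (fun y : ℝ => ϑ ^ y) atTop atTop := by
      have := Real.tendsto_exp_atTop.comp (tendsto_id.const_mul_atTop (Real.log_pos hϑ))
      refine this.congr fun y => ?_
      simp only [Function.comp, id]
      rw [Real.rpow_def_of_pos (by linarith)]
    exact e1.comp t1
  obtain ⟨n₂, hn₂⟩ := eventually_atTop.1 (t0.eventually_ge_atTop x₁)
  refine ⟨max n₁ n₂, fun n hnn x hxx => ?_⟩
  have hn : n₁ ≤ n := (le_max_left _ _).trans hnn
  have hx : x₁ ≤ x := (hn₂ n ((le_max_right _ _).trans hnn)).trans hxx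
  obtain ⟨b1, b2, b3, b5, b6⟩ := hx₁ x hx
  have hx0 : (0 : ℝ) < x := by linarith
  have b4 : ϑ ^ (c ^ (n + 1)) ≤ (x : ℝ) ^ c := by
    rw [pow_succ, Real.rpow_mul (by linarith)]
    exact Real.rpow_le_rpow (Real.rpow_nonneg (by linarith) _) hxx hc0.le
  obtain ⟨X, hX⟩ : ∃ X : ℝ, X = (x : ℝ) ^ c := ⟨_, rfl⟩
  obtain ⟨Y, hY⟩ : ∃ Y : ℝ, Y = (x : ℝ) ^ (c - 1) := ⟨_, rfl⟩
  have hXa : (x : ℝ) ^ (c * a) = X ^ a := by rw [hX, ← Real.rpow_mul hx0.le]
  rw [hXa] at b2 b3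
  rw [← hX] at b4 b5 ⊢
  rw [← hY] at b2 b6 ⊢
  have hX0 : 0 < X := by linarith
  have hYX : Y ≤ X := by
    rw [hX, hY]
    exact Real.rpow_le_rpow_of_exponent_le b1 (by linarith)
  obtain ⟨X', hX'⟩ : ∃ X' : ℕ, X' = ⌈X⌉₊ := ⟨_, rfl⟩
  have k1 : X ≤ X' := by rw [hX']; exact Nat.le_ceil _
  have k2 : (X' : ℝ) < X + 1 := by rw [hX']; exact Nat.ceil_lt_add_one hX0.le
  obtain ⟨B, hB⟩ : ∃ B : ℕ, B = ⌈X ^ a⌉₊ := ⟨_, rfl⟩
  have k3 : X ^ a ≤ B := by rw [hB]; exact Nat.le_ceil _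
  have k4 : (B : ℝ) < X ^ a + 1 := by rw [hB]; exact Nat.ceil_lt_add_one (by positivity)
  have hBr : (2 : ℝ) ≤ B := by linarith
  obtain ⟨M, hM⟩ : ∃ M : ℕ, M = ⌊Y / (2 * B)⌋₊ := ⟨_, rfl⟩
  have k5 : (M : ℝ) * B ≤ Y / 2 := by
    have : (M : ℝ) ≤ Y / (2 * B) := by rw [hM]; exact Nat.floor_le (by positivity)
    rw [le_div_iff₀ (by positivity)] at this
    linarith
  have k6 : Y / 4 ≤ (M : ℝ) * B := by
    have : Y / (2 * B) < M + 1 := by rw [hM]; exact Nat.lt_floor_add_one _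
    rw [div_lt_iff₀ (by positivity)] at this
    nlinarith
  -- the elements
  have hel : ∀ i : ℕ, ∃ m : ℕ, i < M → m ∈ G (n + 1) ∧ X' + i * B < m ∧ m ≤ X' + (i + 1) * B := by
    intro i
    by_cases hi : i < M
    · have hir : (i : ℝ) + 1 ≤ M := by exact_mod_cast hi
      have h1 : (i : ℝ) * B ≤ M * B := by
        apply mul_le_mul_of_nonneg_right _ (by positivity)
        linarith
      obtain ⟨m, hm1, hm2, hm3⟩ := hG (n + 1) (by omega) X b4 (X' + i * B)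
        (by push_cast; have : 0 ≤ (i : ℝ) * B := by positivity
            linarith)
        (by push_cast; linarith)
      refine ⟨m, fun _ => ⟨hm1, hm2, ?_⟩⟩
      have : (m : ℝ) ≤ (X' + i * B : ℕ) + B := by linarith
      have h2 : m ≤ (X' + i * B) + B := by exact_mod_cast this
      calc m ≤ (X' + i * B) + B := h2
        _ = X' + (i + 1) * B := by ring
    · exact ⟨0, fun h => absurd h hi⟩
  choose m hm using hel
  have hinj : Set.InjOn m (range M : Set ℕ) := by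
    intro i hi j hj hij
    rw [mem_coe, mem_range] at hi hj
    obtain ⟨-, i1, i2⟩ := hm i hi
    obtain ⟨-, j1, j2⟩ := hm j hj
    rw [hij] at i1 i2
    by_contra hne
    rcases lt_or_gt_of_ne hne with h | h
    · have : (i + 1) * B ≤ j * B := Nat.mul_le_mul_right _ h
      omega
    · have : (j + 1) * B ≤ i * B := Nat.mul_le_mul_right _ h
      omega
  refine ⟨(range M).image m, fun y hy => ?_, ?_⟩
  · rw [mem_image] at hy
    obtain ⟨i, hi, rfl⟩ := hy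
    rw [mem_range] at hi
    obtain ⟨i0, i1, i2⟩ := hm i hi
    have i1r : (X' : ℝ) + i * B < m i := by exact_mod_cast i1
    have i2r : (m i : ℝ) ≤ X' + (i + 1) * B := by exact_mod_cast i2
    have hir : (i : ℝ) + 1 ≤ M := by exact_mod_cast hi
    have h1 : ((i : ℝ) + 1) * B ≤ M * B := mul_le_mul_of_nonneg_right hir (by positivity)
    refine ⟨i0, ?_, by linarith⟩
    have : 0 ≤ (i : ℝ) * B := by positivity
    linarith
  · rw [card_image_of_injOn hinj, card_range, ← hη]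
    have e1 : (x : ℝ) ^ (c - 1 - η) * (X ^ a * X ^ a) = Y := by
      rw [← hXa, hY, ← Real.rpow_add hx0, ← Real.rpow_add hx0]
      congr 1
      rw [hca]; ring
    have hXa0 : 0 < X ^ a := by positivity
    have e2 : Y / 4 ≤ M * (2 * X ^ a) := by
      refine k6.trans (mul_le_mul_of_nonneg_left ?_ (by positivity))
      linarith
    have e3 : Y ≤ M * (X ^ a * X ^ a) := by
      have : (M : ℝ) * (8 * X ^ a) ≤ M * (X ^ a * X ^ a) :=
        mul_le_mul_of_nonneg_left (mul_le_mul_of_nonneg_right b3 hXa0.le) (by positivity)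
      linarith
    have e4 : (x : ℝ) ^ (c - 1 - η) * (X ^ a * X ^ a) ≤ M * (X ^ a * X ^ a) := by rw [e1]; exact e3
    exact le_of_mul_le_mul_right e4 (by positivity)

/-- dimension one from all smaller dimensions -/
lemma dim_eq_one {A : Set ℝ} (h : ∀ s : ℝ, 0 < s → s < 1 → ENNReal.ofReal s ≤ dimH A) : dimH A = 1 := by
  apply le_antisymm
  · refine (dimH_mono (Set.subset_univ _)).trans ?_
    rw [Real.dimH_univ]
  · by_contra hcon
    push Not at hcon
    have hDt : dimH A ≠ ⊤ := ne_top_of_lt hcon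
    have hD1 : (dimH A).toReal < 1 := by
      have := (ENNReal.toReal_lt_toReal hDt ENNReal.one_ne_top).2 hcon
      simpa using this
    obtain ⟨s, hs1, hs2⟩ := exists_between hD1
    have hs0 : 0 < s := lt_of_le_of_lt ENNReal.toReal_nonneg hs1
    have h4 := ENNReal.toReal_mono hDt (h s hs0 hs2)
    rw [ENNReal.toReal_ofReal hs0.le] at h4
    linarith

end Pool.Agent.X10.ML
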