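import Mathlib

set_option autoImplicit false

/-! # The record function at powers (helper10) -/

namespace Pool.Agent.X10.ML

open Filter

/-- the size `L (log L)² log₃ L / (log₂ L)²` of the record gaps as a function of `L = log x` -/
noncomputable def Fr (L : ℝ) : ℝ :=
  L * Real.log L ^ 2 * Real.log (Real.log (Real.log L)) / Real.log (Real.log L) ^ 2

/-- comparison of the values of the record function -/
lemma Fr_comp (a : ℝ) (ha : 0 < a) : ∃ L₀ : ℝ, ∀ L L' : ℝ, L₀ ≤ L → a * L ≤ L' → L' ≤ L →
    a / 8 * Fr L ≤ Fr L' ∧ 0 < Fr L' := by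
  have h1 : ∀ᶠ L : ℝ in atTop, 2 * |Real.log a| ≤ Real.log L ∧ 4 ≤ Real.log (Real.log L) ∧
      4 ≤ Real.log (Real.log (Real.log L)) ∧ 1 ≤ L ∧ 4 ≤ Real.log L := by
    filter_upwards [Real.tendsto_log_atTop.eventually_ge_atTop (2 * |Real.log a|),
      (Real.tendsto_log_atTop.comp Real.tendsto_log_atTop).eventually_ge_atTop 4,
      (Real.tendsto_log_atTop.comp (Real.tendsto_log_atTop.comp
        Real.tendsto_log_atTop)).eventually_ge_atTop 4, eventually_ge_atTop 1,
      Real.tendsto_log_atTop.eventually_ge_atTop 4] with L p1 p2 p3 p4 p5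
    exact ⟨p1, p2, p3, p4, p5⟩
  obtain ⟨L₀, hL₀⟩ := eventually_atTop.1 h1
  refine ⟨L₀, fun L L' hL hL1 hL2 => ?_⟩
  obtain ⟨p1, p2, p3, p4, p5⟩ := hL₀ L hL
  have hL0 : 0 < L := by linarith
  have hL'0 : 0 < L' := lt_of_lt_of_le (by positivity) hL1
  -- the logarithms
  have q1 : Real.log L / 2 ≤ Real.log L' := by
    have e1 : Real.log (a * L) ≤ Real.log L' := Real.log_le_log (by positivity) hL1
    rw [Real.log_mul ha.ne' hL0.ne'] at e1
    have := neg_abs_le (Real.log a)
    linarith
  have q1' : Real.log L' ≤ Real.log L := Real.log_le_log hL'0 hL2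
  have hl2 : Real.log 2 ≤ 1 := by linarith [Real.log_two_lt_d9]
  have q2 : Real.log (Real.log L) / 2 ≤ Real.log (Real.log L') := by
    have e1 : Real.log (Real.log L / 2) ≤ Real.log (Real.log L') := Real.log_le_log (by linarith) q1
    rw [Real.log_div (by linarith) (by norm_num)] at e1
    linarith
  have q2' : Real.log (Real.log L') ≤ Real.log (Real.log L) := Real.log_le_log (by linarith) q1'
  have q3 : Real.log (Real.log (Real.log L)) / 2 ≤ Real.log (Real.log (Real.log L')) := by
    have e1 : Real.log (Real.log (Real.log L) / 2) ≤ Real.log (Real.log (Real.log L')) :=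
      Real.log_le_log (by linarith) q2
    rw [Real.log_div (by linarith) (by norm_num)] at e1
    linarith
  have e0 : 0 < Real.log (Real.log L') := by linarith
  have hnum : 0 < L' * Real.log L' ^ 2 * Real.log (Real.log (Real.log L')) := by
    have : 0 < Real.log L' := by linarith
    have : 0 < Real.log (Real.log (Real.log L')) := by linarith
    positivity
  refine ⟨?_, by unfold Fr; positivity⟩
  unfold Fr
  have e1 : a / 8 * (L * Real.log L ^ 2 * Real.log (Real.log (Real.log L))) ≤
      L' * Real.log L' ^ 2 * Real.log (Real.log (Real.log L')) := by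
    calc a / 8 * (L * Real.log L ^ 2 * Real.log (Real.log (Real.log L)))
        = (a * L) * (Real.log L / 2) ^ 2 * (Real.log (Real.log (Real.log L)) / 2) := by ring
      _ ≤ L' * Real.log L' ^ 2 * Real.log (Real.log (Real.log L')) := by
        have g1 : 0 ≤ Real.log L / 2 := by linarith
        have g2 : 0 ≤ Real.log (Real.log (Real.log L)) / 2 := by linarith
        gcongr
  calc a / 8 * (L * Real.log L ^ 2 * Real.log (Real.log (Real.log L)) / Real.log (Real.log L) ^ 2)
      = (a / 8 * (L * Real.log L ^ 2 * Real.log (Real.log (Real.log L)))) /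
        Real.log (Real.log L) ^ 2 := by ring
    _ ≤ (L' * Real.log L' ^ 2 * Real.log (Real.log (Real.log L'))) / Real.log (Real.log L) ^ 2 :=
        div_le_div_of_nonneg_right e1 (by positivity)
    _ ≤ (L' * Real.log L' ^ 2 * Real.log (Real.log (Real.log L'))) / Real.log (Real.log L') ^ 2 :=
        div_le_div_of_nonneg_left hnum.le (by positivity) (by gcongr)

end Pool.Agent.X10.ML
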