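import Pool.Agent.X10.ML.Dense
import Pool.Agent.X10.SP.Lin3

set_option autoImplicit false

/-! # Mills sequences at which many linear forms are composite (helper10) -/

namespace Pool.Agent.X10.ML

open Finset Filter

theorem forms (c : ℝ) (hc : 1 < c) (k : ℕ → ℕ) (a b : (n : ℕ) → Fin (k n) → ℤ)
    (ha : ∀ n i, a n i ≠ 0)
    (hsize : ∀ ε : ℝ, 0 < ε → ∀ᶠ n : ℕ in atTop, ∀ i,
      (|a n i| : ℝ) ≤ Real.exp (ε * c ^ (2 * n)) ∧ (|b n i| : ℝ) ≤ Real.exp (ε * c ^ (2 * n)))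
    (hsum : ∀ ε : ℝ, 0 < ε → ∀ᶠ n : ℕ in atTop,
      ∑ i, ((a n i).natAbs : ℝ) / (Nat.totient (a n i).natAbs : ℝ) ≤ ε * (n * c ^ n))
    (U : Set ℝ) (hU : IsOpen U) (hne : (U ∩ Set.Ioi 1).Nonempty) :
    dimH {θ : ℝ | θ ∈ U ∧ 1 < θ ∧ ∃ n₀ : ℕ, ∀ n : ℕ, n₀ ≤ n →
      ⌊θ ^ (c ^ n)⌋₊ ∈ {m : ℕ | ∀ i, ¬ (a n i * (m : ℤ) + b n i).natAbs.Prime}} = 1 := by
  apply dim_eq_one
  intro s hs0 hs1
  obtain ⟨c₁, hc₁, X₀, hlin⟩ := Pool.Agent.X10.SP.Lin.lin
  apply mills_dense c s hc hs0 hs1 (fun n => {m : ℕ | ∀ i, ¬ (a n i * (m : ℤ) + b n i).natAbs.Prime})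
    _ U hU hne
  intro ϑ hϑ
  obtain ⟨e, he⟩ : ∃ e, e = eta c s / (2 * c) := ⟨_, rfl⟩
  rw [← he]
  have hη0 := eta_pos hc hs1
  have hc0 : 0 < c := by linarith
  have he0 : 0 < e := by rw [he]; positivity
  have hlϑ : 0 < Real.log ϑ := Real.log_pos hϑ
  have hlc : 0 < Real.log c := Real.log_pos hc
  obtain ⟨lam, hlam⟩ : ∃ lam, lam = e / 2 * Real.log ϑ := ⟨_, rfl⟩
  have hlam0 : 0 < lam := by rw [hlam]; positivity
  have t1 : Tendsto (fun N : ℕ => c ^ N) atTop atTop := tendsto_pow_atTop_atTop_of_one_lt hc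
  have t0 : Tendsto (fun n : ℕ => ϑ ^ (c ^ n)) atTop atTop := by
    have e1 : Tendsto (fun y : ℝ => ϑ ^ y) atTop atTop := by
      have := Real.tendsto_exp_atTop.comp (tendsto_id.const_mul_atTop (Real.log_pos hϑ))
      refine this.congr fun y => ?_
      simp only [Function.comp, id]
      rw [Real.rpow_def_of_pos (by linarith)]
    exact e1.comp t1
  have ev1 : ∀ᶠ X : ℝ in atTop, 1 ≤ X ∧ 4 ≤ X ^ e ∧ 2 * ((X₀ : ℝ) + 1) ≤ X ^ e := by
    filter_upwards [eventually_ge_atTop 1, (tendsto_rpow_atTop he0).eventually_ge_atTop 4,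
      (tendsto_rpow_atTop he0).eventually_ge_atTop (2 * ((X₀ : ℝ) + 1))] with X h1 h2 h3
    exact ⟨h1, h2, h3⟩
  obtain ⟨X₁, hX₁⟩ := eventually_atTop.1 ev1
  have tn : Tendsto (fun n : ℕ => (n : ℝ) * Real.log c / 2) atTop atTop :=
    (tendsto_natCast_atTop_atTop.atTop_mul_const hlc).atTop_div_const (by norm_num)
  obtain ⟨n₁, hn₁⟩ := eventually_atTop.1 ((t0.eventually_ge_atTop X₁).and
    ((hsize (lam ^ 2) (by positivity)).and ((hsum (c₁ * (lam * (Real.log c / 2))) (by positivity)).and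
      ((tn.eventually_ge_atTop |Real.log lam|).and (t1.eventually_ge_atTop (1 / lam))))))
  refine ⟨n₁, fun n hn X hX z hz1 hz2 => ?_⟩
  obtain ⟨g1, g2, g3, g4, g5⟩ := hn₁ n hn
  obtain ⟨b1, b2, b3⟩ := hX₁ X (g1.trans hX)
  have hX0 : 0 < X := by linarith
  obtain ⟨Z, hZ⟩ : ∃ Z : ℕ, Z = ⌊X ^ e⌋₊ := ⟨_, rfl⟩
  have z1 : (Z : ℝ) ≤ X ^ e := by rw [hZ]; exact Nat.floor_le (by positivity)
  have z2 : X ^ e < Z + 1 := by rw [hZ]; exact Nat.lt_floor_add_one _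
  have z3 : X ^ e / 2 ≤ Z := by linarith
  have z4 : X₀ ≤ Z := by
    have : (X₀ : ℝ) ≤ Z := by linarith
    exact_mod_cast this
  -- the logarithm of `Z`
  have z5 : lam * c ^ n ≤ Real.log Z := by
    have h1 : (X ^ e) ^ (1 / 2 : ℝ) ≤ Z := by
      refine le_trans ?_ z3
      have h2 : (X ^ e) ^ (1 / 2 : ℝ) * (X ^ e) ^ (1 / 2 : ℝ) = X ^ e := by
        rw [← Real.rpow_add (by positivity)]; norm_num
      have h3 : 2 ≤ (X ^ e) ^ (1 / 2 : ℝ) := by
        have : (4 : ℝ) ^ (1 / 2 : ℝ) ≤ (X ^ e) ^ (1 / 2 : ℝ) := Real.rpow_le_rpow (by norm_num) b2 (by norm_num)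
        have h4 : (4 : ℝ) ^ (1 / 2 : ℝ) = 2 := by
          rw [show (4 : ℝ) = 2 ^ (2 : ℝ) by norm_num, ← Real.rpow_mul (by norm_num)]; norm_num
        rw [h4] at this
        exact this
      nlinarith
    have h2 : Real.log ((X ^ e) ^ (1 / 2 : ℝ)) ≤ Real.log Z := Real.log_le_log (by positivity) h1
    rw [Real.log_rpow (by positivity), Real.log_rpow hX0] at h2
    have h3 : c ^ n * Real.log ϑ ≤ Real.log X := by
      rw [← Real.log_rpow (by linarith)]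
      exact Real.log_le_log (Real.rpow_pos_of_pos (by linarith) _) hX
    have h4 : e / 2 * (c ^ n * Real.log ϑ) ≤ e / 2 * Real.log X := mul_le_mul_of_nonneg_left h3 (by positivity)
    rw [hlam]
    calc e / 2 * Real.log ϑ * c ^ n = e / 2 * (c ^ n * Real.log ϑ) := by ring
      _ ≤ e / 2 * Real.log X := h4
      _ = 1 / 2 * (e * Real.log X) := by ring
      _ ≤ Real.log Z := h2
  have hcn : 0 < c ^ n := by positivity
  have hlZ0 : 0 < Real.log Z := lt_of_lt_of_le (by positivity) z5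
  have z6 : n * (Real.log c / 2) ≤ Real.log (Real.log Z) := by
    have h1 : Real.log (lam * c ^ n) ≤ Real.log (Real.log Z) := Real.log_le_log (by positivity) z5
    rw [Real.log_mul hlam0.ne' hcn.ne', Real.log_pow] at h1
    have h2 := neg_abs_le (Real.log lam)
    have h3 : (n : ℝ) * Real.log c / 2 = n * (Real.log c / 2) := by ring
    rw [h3] at g4
    linarith
  obtain ⟨m, m1, m2, m3⟩ := hlin Z z4 (k n) (a n) (b n) (ha n)
    (fun i => (g2 i).1.trans (Real.exp_le_exp.2 (by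
      rw [mul_comm 2 n, pow_mul, ← mul_pow]
      exact pow_le_pow_left₀ (by positivity) z5 2)))
    (fun i => (g2 i).2.trans (Real.exp_le_exp.2 (by
      rw [mul_comm 2 n, pow_mul, ← mul_pow]
      exact pow_le_pow_left₀ (by positivity) z5 2)))
    (g3.trans (by
      rw [mul_assoc]
      apply mul_le_mul_of_nonneg_left _ hc₁.le
      calc lam * (Real.log c / 2) * (n * c ^ n) = (lam * c ^ n) * (n * (Real.log c / 2)) := by ring
        _ ≤ Real.log Z * Real.log (Real.log Z) := by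
          apply mul_le_mul z5 z6 (by positivity) hlZ0.le)) (z : ℤ)
  have hm0 : 0 ≤ m := by omega
  refine ⟨m.toNat, fun i => ?_, by omega, ?_⟩
  · rw [Int.toNat_of_nonneg hm0]
    exact m3 i
  · have h1 : ((m.toNat : ℕ) : ℤ) ≤ z + Z := by rw [Int.toNat_of_nonneg hm0]; exact m2
    have h2 : ((m.toNat : ℕ) : ℝ) ≤ z + Z := by exact_mod_cast h1
    linarith

end Pool.Agent.X10.ML
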