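import Pool.Agent.X10.ML.Zeros
import Pool.Agent.W192.PP.Fin2

set_option autoImplicit false

/-! # Mills sequences that are very close to small gaps of ordinates (helper10) -/

namespace Pool.Agent.X10.ML

open Finset Filter

/-- counting cells through an index set -/
lemma cells_of_index {α : Type} (P : Finset α) (g : α → ℝ) (A : Set ℝ) (X H D : ℝ)
    (hX : 0 ≤ X) (hH : 0 ≤ H) (hD : 0 ≤ D)
    (hg : ∀ p ∈ P, g p ∈ A ∧ X ≤ g p ∧ g p ≤ X + H)
    (hfib : ∀ y : ℕ, X ≤ (y : ℝ) + 1 → (y : ℝ) ≤ X + H → ((P.filter fun p => ⌊g p⌋₊ = y).card : ℝ) ≤ D) :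
    ∃ T : Finset ℕ, (∀ y ∈ T, X ≤ y ∧ (y : ℝ) + 1 ≤ X + H ∧ Cell A y) ∧
      (P.card : ℝ) ≤ D * (T.card + 2) := by
  classical
  have hfl : ∀ p ∈ P, (⌊g p⌋₊ : ℝ) ≤ g p ∧ g p < ⌊g p⌋₊ + 1 := fun p hp =>
    ⟨Nat.floor_le (hX.trans (hg p hp).2.1), Nat.lt_floor_add_one _⟩
  refine ⟨(P.image (fun p => ⌊g p⌋₊)).filter (fun y : ℕ => X ≤ y ∧ (y : ℝ) + 1 ≤ X + H), ?_, ?_⟩
  · intro y hy
    rw [mem_filter, mem_image] at hy
    obtain ⟨⟨p, hp, hpy⟩, h1, h2⟩ := hy
    obtain ⟨f1, f2⟩ := hfl p hp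
    exact ⟨h1, h2, g p, (hg p hp).1, by rw [← hpy]; exact f1, by rw [← hpy]; exact f2⟩
  · have h1 : P.image (fun p => ⌊g p⌋₊) ⊆
        (P.image (fun p => ⌊g p⌋₊)).filter (fun y : ℕ => X ≤ y ∧ (y : ℝ) + 1 ≤ X + H) ∪
          {⌊X⌋₊, ⌊X + H⌋₊} := by
      intro y hy
      rw [mem_union, mem_filter, mem_insert, mem_singleton]
      by_cases h : X ≤ y ∧ (y : ℝ) + 1 ≤ X + H
      · exact Or.inl ⟨hy, h⟩
      · right
        rw [mem_image] at hy
        obtain ⟨p, hp, hpy⟩ := hy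
        obtain ⟨t1, t2, t3⟩ := hg p hp
        obtain ⟨f1, f2⟩ := hfl p hp
        rw [hpy] at f1 f2
        rw [not_and_or, not_le, not_le] at h
        rcases h with h | h
        · left
          symm
          rw [Nat.floor_eq_iff hX]
          exact ⟨h.le, by linarith⟩
        · right
          symm
          rw [Nat.floor_eq_iff (by linarith)]
          exact ⟨by linarith, by linarith⟩
    have h2 := (card_le_card h1).trans (card_union_le _ _)
    have h3 : ({⌊X⌋₊, ⌊X + H⌋₊} : Finset ℕ).card ≤ 2 := card_le_two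
    have h4 : ((P.image (fun p => ⌊g p⌋₊)).card : ℝ) ≤
        (((P.image (fun p => ⌊g p⌋₊)).filter (fun y : ℕ => X ≤ y ∧ (y : ℝ) + 1 ≤ X + H)).card : ℝ) + 2 := by
      exact_mod_cast h2.trans (Nat.add_le_add_left h3 _)
    have h5 : (P.card : ℝ) = ∑ y ∈ P.image (fun p => ⌊g p⌋₊),
        ((P.filter fun p => ⌊g p⌋₊ = y).card : ℝ) := by
      have h1 := card_eq_sum_card_image (fun p => ⌊g p⌋₊) P
      rw [h1]; push_cast; rfl
    rw [h5]
    calc ∑ y ∈ P.image (fun p => ⌊g p⌋₊), ((P.filter fun p => ⌊g p⌋₊ = y).card : ℝ)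
        ≤ ∑ y ∈ P.image (fun p => ⌊g p⌋₊), D := by
          apply sum_le_sum
          intro y hy
          rw [mem_image] at hy
          obtain ⟨p, hp, hpy⟩ := hy
          obtain ⟨t1, t2, t3⟩ := hg p hp
          obtain ⟨f1, f2⟩ := hfl p hp
          rw [hpy] at f1 f2
          exact hfib y (by linarith) (by linarith)
      _ = D * (P.image (fun p => ⌊g p⌋₊)).card := by rw [sum_const, nsmul_eq_mul]; ring
      _ ≤ _ := mul_le_mul_of_nonneg_left h4 hD

/-- the ordinates of zeta zeros that are followed by a small gap -/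
def SmallGap (lam : ℝ) : Set ℝ := {t | ∃ n : ℕ, 1 ≤ n ∧ t = SG.ord n ∧
  SG.ord (n + 1) - SG.ord n ≤ lam * (2 * Real.pi / Real.log (SG.ord n))}

/-- many cells contain an ordinate followed by a small gap -/
lemma gap_cells_of (h lam lam' : ℝ) (h0 : 0 < h) (hl0 : 0 < lam') (hl2 : lam' < lam)
    (hp : ∃ κ T0 : ℝ, 0 < κ ∧ ∀ T t0 H : ℝ, T0 ≤ T → T ≤ t0 → t0 + H ≤ 2 * T → T ^ h ≤ H →
      κ * H * Real.log T ≤ ({n : ℕ | 1 ≤ n ∧ t0 ≤ SG.ord n ∧ SG.ord (n + 1) ≤ t0 + H ∧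
        SG.ord (n + 1) - SG.ord n < lam' * (2 * Real.pi / Real.log T)}.ncard : ℝ)) :
    ∃ κ X₀ : ℝ, 0 < κ ∧ ∀ X H : ℝ, X₀ ≤ X → X ^ h ≤ H → H ≤ X → ∃ T : Finset ℕ,
      (∀ y ∈ T, X ≤ y ∧ (y : ℝ) + 1 ≤ X + H ∧ Cell (SmallGap lam) y) ∧ κ * H ≤ T.card := by
  classical
  obtain ⟨κ, T0, hκ, hpos⟩ := hp
  obtain ⟨C, hC, hz⟩ := H370.zcount H370.good_zeta
  have ev : ∀ᶠ X : ℝ in atTop, T0 ≤ X ∧ 8 ≤ X ∧ lam' * Real.log 2 ≤ (lam - lam') * Real.log X ∧
      8 * C / κ ≤ X ^ h := by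
    have hpos' : 0 < lam - lam' := by linarith
    filter_upwards [eventually_ge_atTop T0, eventually_ge_atTop 8,
      (Real.tendsto_log_atTop.const_mul_atTop hpos').eventually_ge_atTop (lam' * Real.log 2),
      (tendsto_rpow_atTop h0).eventually_ge_atTop (8 * C / κ)] with X e1 e2 e3 e4
    exact ⟨e1, e2, e3, e4⟩
  obtain ⟨X₁, hX₁⟩ := eventually_atTop.1 ev
  refine ⟨κ / (4 * C), X₁, by positivity, fun X H hX hXH hHX => ?_⟩
  obtain ⟨e1, e2, e3, e4⟩ := hX₁ X hX
  have hX0 : 0 < X := by linarith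
  have hH0 : 0 < H := lt_of_lt_of_le (by positivity) hXH
  have hlog : 0 < Real.log X := Real.log_pos (by linarith)
  have hl2' : 0 < Real.log 2 := Real.log_pos (by norm_num)
  have hcnt := hpos X X H e1 le_rfl (by linarith) hXH
  obtain ⟨S, hS⟩ : ∃ S : Set ℕ, S = {n : ℕ | 1 ≤ n ∧ X ≤ SG.ord n ∧ SG.ord (n + 1) ≤ X + H ∧
        SG.ord (n + 1) - SG.ord n < lam' * (2 * Real.pi / Real.log X)} := ⟨_, rfl⟩
  have hcnt' : κ * H * Real.log X ≤ (S.ncard : ℝ) := by rw [hS]; exact hcnt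
  have hSfin : S.Finite := by
    refine (Set.finite_Iic (SG.NZ (X + H))).subset ?_
    intro n hn
    rw [hS] at hn
    rw [Set.mem_Iic]
    obtain ⟨n1, n2, n3, n4⟩ := hn
    have := (SG.ord_le_iff (by omega : 1 ≤ n + 1) (X + H)).1 n3
    omega
  rw [Set.ncard_eq_toFinset_card S hSfin] at hcnt'
  have hm : ∀ n ∈ hSfin.toFinset, 1 ≤ n ∧ X ≤ SG.ord n ∧ SG.ord (n + 1) ≤ X + H ∧
        SG.ord (n + 1) - SG.ord n < lam' * (2 * Real.pi / Real.log X) := by
    intro n hn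
    rw [Set.Finite.mem_toFinset, hS] at hn
    exact hn
  obtain ⟨T, hT1, hT2⟩ := cells_of_index hSfin.toFinset SG.ord (SmallGap lam) X H (2 * C * Real.log X)
    hX0.le hH0.le (by positivity) (by
      intro n hn
      obtain ⟨n1, n2, n3, n4⟩ := hm n hn
      have hmono : SG.ord n ≤ SG.ord (n + 1) := SG.ord_mono n1 (Nat.le_succ n)
      refine ⟨⟨n, n1, rfl, n4.le.trans ?_⟩, n2, hmono.trans n3⟩
      have hlt : Real.log X ≤ Real.log (SG.ord n) := Real.log_le_log hX0 n2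
      have hle : Real.log (SG.ord n) ≤ Real.log X + Real.log 2 := by
        rw [← Real.log_mul (by linarith) (by norm_num)]
        exact Real.log_le_log (by linarith) (by linarith)
      have hlt0 : 0 < Real.log (SG.ord n) := by linarith
      have hpi := Real.pi_pos
      rw [mul_div_assoc', mul_div_assoc', div_le_div_iff₀ hlog hlt0]
      have : lam' * Real.log (SG.ord n) ≤ lam * Real.log X := by
        calc lam' * Real.log (SG.ord n) ≤ lam' * (Real.log X + Real.log 2) :=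
              mul_le_mul_of_nonneg_left hle hl0.le
          _ ≤ lam * Real.log X := by linarith
      calc lam' * (2 * Real.pi) * Real.log (SG.ord n) = 2 * Real.pi * (lam' * Real.log (SG.ord n)) := by
            ring
        _ ≤ 2 * Real.pi * (lam * Real.log X) := mul_le_mul_of_nonneg_left this (by positivity)
        _ = lam * (2 * Real.pi) * Real.log X := by ring) (by
      intro y hy1 hy2
      have hy3 : (3 : ℝ) ≤ y := by linarith
      have h5 : (hSfin.toFinset.filter fun n => ⌊SG.ord n⌋₊ = y) ⊆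
          Finset.Ioc (SG.NZ ((y : ℝ) - 1)) (SG.NZ ((y : ℝ) + 1)) := by
        intro n hn
        rw [mem_filter] at hn
        obtain ⟨hn1, hn2⟩ := hn
        obtain ⟨n1, n2, n3, n4⟩ := hm n hn1
        have f1 : (y : ℝ) ≤ SG.ord n := by rw [← hn2]; exact Nat.floor_le (by linarith)
        have f2 : SG.ord n < y + 1 := by rw [← hn2]; exact Nat.lt_floor_add_one _
        rw [Finset.mem_Ioc]
        constructor
        · by_contra hcon
          push Not at hcon
          have := (SG.ord_le_iff n1 ((y : ℝ) - 1)).2 hcon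
          linarith
        · exact (SG.ord_le_iff n1 _).1 f2.le
      have h6 := card_le_card h5
      rw [Nat.card_Ioc] at h6
      have h7 := SG.NZ_le_add ((y : ℝ) - 1) (y + 1) (by linarith)
      have h8 : (hSfin.toFinset.filter fun n => ⌊SG.ord n⌋₊ = y).card ≤
          H370.NN riemannZeta ((y : ℝ) - 1) (y + 1) := by omega
      have h9 := hz y hy3
      have h10 : Real.log y ≤ 2 * Real.log X := by
        have : Real.log y ≤ Real.log (X * X) := Real.log_le_log (by linarith) (by nlinarith)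
        rwa [Real.log_mul (by linarith) (by linarith), ← two_mul] at this
      calc ((hSfin.toFinset.filter fun n => ⌊SG.ord n⌋₊ = y).card : ℝ)
          ≤ (H370.NN riemannZeta ((y : ℝ) - 1) (y + 1) : ℝ) := by exact_mod_cast h8
        _ ≤ C * Real.log y := h9
        _ ≤ C * (2 * Real.log X) := mul_le_mul_of_nonneg_left h10 hC.le
        _ = 2 * C * Real.log X := by ring)
  refine ⟨T, hT1, ?_⟩
  have h2 : κ * H ≤ 2 * C * (T.card + 2) := by
    have : (κ * H) * Real.log X ≤ (2 * C * (T.card + 2)) * Real.log X := by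
      calc (κ * H) * Real.log X ≤ 2 * C * Real.log X * (T.card + 2) := hcnt'.trans hT2
        _ = _ := by ring
    exact le_of_mul_le_mul_right this hlog
  have h3 : 8 * C ≤ κ * H := by
    rw [div_le_iff₀ hκ] at e4
    calc 8 * C ≤ X ^ h * κ := e4
      _ ≤ H * κ := mul_le_mul_of_nonneg_right hXH hκ.le
      _ = _ := by ring
  have h4 : κ * H ≤ 4 * C * T.card := by nlinarith
  calc κ / (4 * C) * H = (κ * H) / (4 * C) := by ring
    _ ≤ (4 * C * T.card) / (4 * C) := div_le_div_of_nonneg_right h4 (by positivity)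
    _ = T.card := by field_simp

/-- many cells contain an ordinate followed by a small gap -/
lemma gap_cells (h lam : ℝ) (h0 : 0 < h) (h1 : h ≤ 1) (hlam : 2 / (2 + h) < lam) :
    ∃ κ X₀ : ℝ, 0 < κ ∧ ∀ X H : ℝ, X₀ ≤ X → X ^ h ≤ H → H ≤ X → ∃ T : Finset ℕ,
      (∀ y ∈ T, X ≤ y ∧ (y : ℝ) + 1 ≤ X + H ∧ Cell (SmallGap lam) y) ∧ κ * H ≤ T.card := by
  obtain ⟨lam', hl1, hl2⟩ := exists_between hlam
  exact gap_cells_of h lam lam' h0 (lt_trans (by positivity) hl1) hl2
    (Pool.Agent.W192.PP.pos_prop h lam' h0 h1 hl1)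

end Pool.Agent.X10.ML
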