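import Pool.Agent.X10.ML.Gaps
import Pool.Agent.TH299.PG.FinQ

set_option autoImplicit false

/-! # Mills sequences that are very close to small gaps of ordinates: the theorem (helper10) -/

namespace Pool.Agent.X10.ML

open Finset Filter

theorem mills_gaps (c lam : ℝ) (hc : 1 < c)
    (hlam : 2 * c / (3 * c - 1) < lam ∨ (1000 < c ∧ 9 / 16 < lam)) (δ : ℕ → ℝ) (hδ0 : ∀ n, 0 < δ n)
    (hδ : ∀ ε : ℝ, 0 < ε → ∀ᶠ n : ℕ in atTop, Real.exp (-(ε * c ^ n)) ≤ δ n)
    (U : Set ℝ) (hU : IsOpen U) (hne : (U ∩ Set.Ioi 1).Nonempty) :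
    dimH {θ : ℝ | θ ∈ U ∧ 1 < θ ∧ ∃ N : ℕ, ∀ n : ℕ, N ≤ n →
      ∃ a ∈ SmallGap lam, |θ ^ (c ^ n) - a| ≤ δ n} = 1 := by
  have hc0 : 0 < c := by linarith
  obtain ⟨h, hh, hcell⟩ : ∃ h : ℝ, h < 1 - 1 / c ∧ ∃ κ X₀ : ℝ, 0 < κ ∧ ∀ X H : ℝ, X₀ ≤ X → X ^ h ≤ H →
      H ≤ X → ∃ T : Finset ℕ, (∀ y ∈ T, X ≤ y ∧ (y : ℝ) + 1 ≤ X + H ∧ Cell (SmallGap lam) y) ∧
        κ * H ≤ T.card := by
    rcases hlam with hl | ⟨hc2, hl⟩
    · -- choose `h` slightly below `1 - 1 / c`
      have h1c : 0 < 1 - 1 / c := by rw [sub_pos, div_lt_one hc0]; exact hc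
      have hlam0 : 0 < lam := lt_trans (by apply div_pos <;> linarith) hl
      have h2 : 2 / lam - 2 < 1 - 1 / c := by
        rw [div_lt_iff₀ (by linarith)] at hl
        have : 2 / lam < (3 * c - 1) / c := by
          rw [div_lt_div_iff₀ hlam0 hc0]; linarith
        have h3 : (3 * c - 1) / c = 3 - 1 / c := by field_simp
        linarith
      obtain ⟨h, hh1, hh2⟩ := exists_between (max_lt h1c h2)
      have hh0 : 0 < h := lt_of_le_of_lt (le_max_left _ _) hh1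
      have hhl : 2 / lam - 2 < h := lt_of_le_of_lt (le_max_right _ _) hh1
      refine ⟨h, hh2, gap_cells h lam hh0 (by have : 0 < 1 / c := by positivity
                                              linarith) ?_⟩
      rw [div_lt_iff₀ (by linarith)]
      have : 2 / lam < 2 + h := by linarith
      rw [div_lt_iff₀ hlam0] at this
      linarith
    · have h1 : (999 / 1000 : ℝ) < 1 - 1 / c := by
        have : 1 / c < 1 / 1000 := one_div_lt_one_div_of_lt (by norm_num) hc2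
        linarith
      obtain ⟨h, hh1, hh2⟩ := exists_between h1
      obtain ⟨κ, T0, hκ, hp⟩ := Pool.Agent.TH299.PG.pos_prop2 h hh1
      exact ⟨h, hh2, gap_cells_of h lam (9 / 16) (by linarith) (by norm_num) hl ⟨κ, T0, hκ, hp⟩⟩
  exact mills_cells (J := Unit) (fun _ => SmallGap lam) c h hc hh (fun _ => hcell) δ hδ0 hδ (fun _ => ())
    U hU hne

end Pool.Agent.X10.ML
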