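import Pool.Agent.X10.ML.Main
import Pool.Agent.X10.ML.Tree2

set_option autoImplicit false

/-! # The general Mills-type theorem, with a relation between consecutive integer parts (helper10) -/

namespace Pool.Agent.X10.ML

open Finset Filter

/-- **General Mills-type theorem, relations.** If, for every `ϑ > 1` and all large `n`, for each
`x ≥ ϑ ^ (c ^ n)` the interval `[x ^ c, (x + 1) ^ c - 1)` contains at least `x ^ (c - 1 - η)` integers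
`y` with `R n x y`, then the `θ > 1` such that the integer parts of `θ ^ (c ^ n)` and
`θ ^ (c ^ (n + 1))` are in the relation `R n` for all large `n` form, in each open set that meets
`(1, ∞)`, a set of dimension at least `s`. -/
theorem mills_rel (c s : ℝ) (hc : 1 < c) (hs0 : 0 < s) (hs1 : s < 1) (R : ℕ → ℕ → ℕ → Prop)
    (hG : ∀ ϑ : ℝ, 1 < ϑ → ∃ n₁ : ℕ, ∀ n : ℕ, n₁ ≤ n → ∀ x : ℕ, ϑ ^ (c ^ n) ≤ x → ∃ T : Finset ℕ,
      (∀ y ∈ T, R n x y ∧ (x : ℝ) ^ c ≤ y ∧ (y : ℝ) + 1 < ((x : ℝ) + 1) ^ c) ∧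
      (x : ℝ) ^ (c - 1 - eta c s) ≤ T.card)
    (U : Set ℝ) (hU : IsOpen U) (hne : (U ∩ Set.Ioi 1).Nonempty) :
    ENNReal.ofReal s ≤ dimH {θ : ℝ | θ ∈ U ∧ 1 < θ ∧ ∃ N : ℕ, ∀ n : ℕ, N ≤ n →
      R n ⌊θ ^ (c ^ n)⌋₊ ⌊θ ^ (c ^ (n + 1))⌋₊} := by
  classical
  obtain ⟨θ₁, hθU, hθ1⟩ := hne
  rw [Set.mem_Ioi] at hθ1
  obtain ⟨r, hr0, hr⟩ := Metric.isOpen_iff.1 hU θ₁ hθU
  obtain ⟨r', hr'⟩ : ∃ r', r' = min r (θ₁ - 1) / 2 := ⟨_, rfl⟩
  have hr'0 : 0 < r' := by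
    rw [hr']
    have : 0 < min r (θ₁ - 1) := lt_min hr0 (by linarith)
    linarith
  have hr'r : r' < r := by
    have : min r (θ₁ - 1) ≤ r := min_le_left _ _
    linarith
  have hr'1 : r' < θ₁ - 1 := by
    have : min r (θ₁ - 1) ≤ θ₁ - 1 := min_le_right _ _
    linarith
  obtain ⟨n₁, hG⟩ := hG (θ₁ - r') (by linarith)
  obtain ⟨X₀, hX₀⟩ := weights c s hc hs0 hs1
  have hη0 := eta_pos hc hs1
  obtain ⟨η, hη⟩ : ∃ η, η = eta c s := ⟨_, rfl⟩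
  rw [← hη] at hG hX₀ hη0
  have hηc : η ≤ (c - 1) / 4 := by
    rw [hη, eta]
    have e1 : min (c - 1) 1 ≤ c - 1 := min_le_left _ _
    have e2 : 0 < min (c - 1) 1 := lt_min (by linarith) one_pos
    nlinarith
  have hp0 : 0 < c - 1 - η := by linarith
  -- choice of the level
  have t1 : Tendsto (fun N : ℕ => c ^ N) atTop atTop := tendsto_pow_atTop_atTop_of_one_lt hc
  have t2 : Tendsto (fun N : ℕ => ((⌊θ₁ ^ (c ^ N)⌋₊ : ℕ) : ℝ)) atTop atTop := by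
    have e1 : Tendsto (fun y : ℝ => θ₁ ^ y) atTop atTop := by
      have := Real.tendsto_exp_atTop.comp (tendsto_id.const_mul_atTop (Real.log_pos hθ1))
      refine this.congr fun y => ?_
      simp only [Function.comp, id]
      rw [Real.rpow_def_of_pos (by linarith)]
    exact (tendsto_natCast_atTop_atTop (R := ℝ)).comp (tendsto_nat_floor_atTop.comp (e1.comp t1))
  have t3 : ∀ᶠ x : ℝ in atTop, X₀ ≤ x ∧ 1 ≤ x ∧ 4 ≤ x ^ (c - 1 - η) := by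
    filter_upwards [eventually_ge_atTop X₀, eventually_ge_atTop 1,
      (tendsto_rpow_atTop hp0).eventually_ge_atTop 4] with x a c' e
    exact ⟨a, c', e⟩
  obtain ⟨N, ⟨b1, b3, b5⟩, hNn, hNr⟩ := ((t2.eventually t3).and
    ((eventually_ge_atTop n₁).and (t1.eventually_ge_atTop (1 / r')))).exists
  obtain ⟨x₀, hx₀⟩ : ∃ x₀ : ℕ, x₀ = ⌊θ₁ ^ (c ^ N)⌋₊ := ⟨_, rfl⟩
  rw [← hx₀] at b1 b3 b5
  obtain ⟨C, hC⟩ : ∃ C : ℝ, C = c ^ N := ⟨_, rfl⟩
  rw [← hC] at hx₀ hNr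
  have hC1 : 1 ≤ C := by rw [hC]; exact one_le_pow₀ hc.le
  have hC0 : 0 < C := by linarith
  have hCr : 1 ≤ C * r' := by
    rw [div_le_iff₀ hr'0] at hNr
    exact hNr
  have hx₀1 : 1 ≤ x₀ := by exact_mod_cast b3
  have hx₀low : (θ₁ - r') ^ C ≤ x₀ := by
    have e1 := add_pow_one (a := θ₁ - r') (r := r') (C := C) (by linarith) hr'0 hC1 hCr
    rw [sub_add_cancel] at e1
    have e2 : θ₁ ^ C < x₀ + 1 := by rw [hx₀]; exact Nat.lt_floor_add_one _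
    linarith
  obtain ⟨c₀, hc₀, hw⟩ := hX₀ x₀ b1
  -- the numbers of children
  obtain ⟨m, hm⟩ : ∃ m : ℕ → ℕ, m = fun n => ⌊(x₀ : ℝ) ^ (c ^ n * (c - 1 - η)) / 2⌋₊ := ⟨_, rfl⟩
  have hbase : ∀ n : ℕ, 4 ≤ (x₀ : ℝ) ^ (c ^ n * (c - 1 - η)) := by
    intro n
    refine b5.trans (Real.rpow_le_rpow_of_exponent_le b3 ?_)
    have : 1 ≤ c ^ n := one_le_pow₀ hc.le
    nlinarith
  have hm2 : ∀ n, 2 ≤ m n := by
    intro n
    rw [hm]
    apply Nat.le_floor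
    have := hbase n
    push_cast
    linarith
  have hmlow : ∀ n, (x₀ : ℝ) ^ (c ^ n * (c - 1 - η)) / 4 ≤ m n := by
    intro n
    have h1 := hbase n
    have h2 : (x₀ : ℝ) ^ (c ^ n * (c - 1 - η)) / 2 < m n + 1 := by
      rw [hm]; exact Nat.lt_floor_add_one _
    linarith
  have hmup : ∀ n, 2 * (m n : ℝ) ≤ (x₀ : ℝ) ^ (c ^ n * (c - 1 - η)) := by
    intro n
    have h2 : (m n : ℝ) ≤ (x₀ : ℝ) ^ (c ^ n * (c - 1 - η)) / 2 := by
      rw [hm]; exact Nat.floor_le (by positivity)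
    linarith
  -- the children
  have hch : ∀ n x : ℕ, ∃ f : ℕ → ℕ, (x₀ : ℝ) ^ (c ^ n) ≤ x →
      (∀ j < m n, R (N + n) x (f j) ∧ (x : ℝ) ^ c ≤ f j ∧
        (f j : ℝ) + 1 < ((x : ℝ) + 1) ^ c) ∧
      ∀ j j', j < j' → j' < m n → f j + 2 * (j' - j) ≤ f j' := by
    intro n x
    by_cases hx : (x₀ : ℝ) ^ (c ^ n) ≤ x
    · have hxx : (θ₁ - r') ^ (c ^ (N + n)) ≤ x := by
        refine le_trans ?_ hx
        rw [pow_add, Real.rpow_mul (by linarith), ← hC]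
        exact Real.rpow_le_rpow (Real.rpow_nonneg (by linarith) _) hx₀low (by positivity)
      obtain ⟨T, hT1, hT2⟩ := hG (N + n) (by omega) x hxx
      have h2m : 2 * m n ≤ T.card := by
        have e1 : 2 * (m n : ℝ) ≤ T.card := by
          refine (hmup n).trans (le_trans ?_ hT2)
          rw [Real.rpow_mul (by positivity)]
          exact Real.rpow_le_rpow (by positivity) hx hp0.le
        exact_mod_cast e1
      obtain ⟨f, hf1, hf2⟩ := exists_spaced T (m n) h2m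
      exact ⟨f, fun _ => ⟨fun j hj => hT1 _ (hf1 j hj), hf2⟩⟩
    · exact ⟨fun _ => 0, fun h => absurd h hx⟩
  choose ch hch' using hch
  obtain ⟨pt, hpt1, hpt2⟩ := tree_rel c hc (fun n => R (N + n)) m x₀ hx₀1 ch
    (fun n x hx j hj => (hch' n x hx).1 j hj) (fun n x hx => (hch' n x hx).2)
  have hdim := dimH_cantor m hm2 s hs0 hs1.le
    (fun n => 1 / (c ^ (n + 1) * ((x₀ : ℝ) + 1) ^ (c ^ (n + 1)))) (fun n => by positivity) c₀ hc₀
    (fun n => hw m hmlow n) pt hpt2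
  refine hdim.trans ?_
  -- transfer
  obtain ⟨W, hW⟩ : ∃ W : Set ℝ, W = {θ : ℝ | θ ∈ U ∧ 1 < θ ∧ ∃ N : ℕ, ∀ n : ℕ, N ≤ n →
      R n ⌊θ ^ (c ^ n)⌋₊ ⌊θ ^ (c ^ (n + 1))⌋₊} := ⟨_, rfl⟩
  rw [← hW]
  have hF : ContDiffOn ℝ 1 (fun θ : ℝ => θ ^ C) (Set.Ioi 0) := by
    intro θ hθ
    exact (Real.contDiffAt_rpow_const_of_ne (ne_of_gt hθ)).contDiffWithinAt
  have hle : dimH ((fun θ : ℝ => θ ^ C) '' W) ≤ dimH W := by
    apply hF.dimH_image_le (convex_Ioi 0)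
    intro θ hθ
    rw [hW] at hθ
    exact lt_trans one_pos hθ.2.1
  refine le_trans (dimH_mono ?_) hle
  rintro _ ⟨d, rfl⟩
  obtain ⟨g1, g2, g3⟩ := hpt1 d
  have hv0 : 0 < pt d := by linarith
  have hθC : (pt d ^ (1 / C)) ^ C = pt d := by
    rw [← Real.rpow_mul hv0.le, one_div_mul_cancel hC0.ne', Real.rpow_one]
  refine ⟨pt d ^ (1 / C), ?_, hθC⟩
  have hx₀le : (x₀ : ℝ) ≤ θ₁ ^ C := by rw [hx₀]; exact Nat.floor_le (by positivity)
  have hx₀lt : θ₁ ^ C < x₀ + 1 := by rw [hx₀]; exact Nat.lt_floor_add_one _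
  have hθ0 : 0 ≤ pt d ^ (1 / C) := Real.rpow_nonneg hv0.le _
  have k1 : θ₁ - r' ≤ pt d ^ (1 / C) := by
    have e1 := add_pow_one (a := θ₁ - r') (r := r') (C := C) (by linarith) hr'0 hC1 hCr
    rw [sub_add_cancel] at e1
    have e2 : (θ₁ - r') ^ C ≤ pt d := by linarith
    by_contra hcon
    push Not at hcon
    have e3 := Real.rpow_lt_rpow hθ0 hcon hC0
    rw [hθC] at e3
    linarith
  have k2 : pt d ^ (1 / C) ≤ θ₁ + r' := by
    have e1 := add_pow_one (a := θ₁) (r := r') (C := C) (by linarith) hr'0 hC1 hCr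
    have e2 : pt d ≤ (θ₁ + r') ^ C := by linarith
    by_contra hcon
    push Not at hcon
    have e3 := Real.rpow_lt_rpow (by linarith) hcon hC0
    rw [hθC] at e3
    linarith
  rw [hW]
  refine ⟨hr ?_, by linarith, N, fun n hn => ?_⟩
  · rw [Metric.mem_ball, Real.dist_eq, abs_lt]
    constructor <;> linarith
  · obtain ⟨k, rfl⟩ : ∃ k, n = N + k := ⟨n - N, by omega⟩
    have e1 : ∀ k : ℕ, (pt d ^ (1 / C)) ^ (c ^ (N + k)) = pt d ^ (c ^ k) := fun k => by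
      rw [pow_add, Real.rpow_mul hθ0, ← hC, hθC]
    rw [e1, add_assoc, e1]
    exact g3 k

end Pool.Agent.X10.ML
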