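import Pool.Agent.X10.ML.Dense
import Pool.Agent.X10.ML.FComp
import Pool.Agent.Results.MP_f9960f_nt.SeveralRealMultiples

set_option autoImplicit false

/-! # Record gaps around the numbers of a Mills sequence and their real multiples (helper10) -/

namespace Pool.Agent.X10.ML

open Finset Filter

/-- vectors whose integer combinations are not too close to integers -/
def Dioph (r : ℕ) (τ b : ℝ) (α : Fin r → ℝ) : Prop :=
  (∀ j, b ≤ α j) ∧ ∀ (H : ℕ) (h : Fin r → ℤ), h ≠ 0 → (∀ j, |h j| ≤ H) → ∀ m : ℤ,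
    b * (H : ℝ) ^ (-τ) ≤ |∑ j, (h j : ℝ) * α j - m|

/-- no prime is at distance at most `d` from `x` -/
def Free (x d : ℝ) : Prop := ∀ q : ℕ, q.Prime → d < |(q : ℝ) - x|

theorem multiples (r : ℕ) (hr : 1 ≤ r) (τ : ℝ) (hτ : 0 ≤ τ) (c s : ℝ) (hc : 1 < c) (hs0 : 0 < s)
    (hs1 : s < 1) : ∃ κ : ℝ, 0 < κ ∧ ∀ b : ℝ, 0 < b → ∀ α β : ℕ → Fin r → ℝ,
      (∀ n, Dioph r τ b (α n)) →
      (∀ ε : ℝ, 0 < ε → ∀ᶠ n : ℕ in atTop, ∀ j, |β n j| ≤ Real.exp (ε * c ^ n)) →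
      ∀ U : Set ℝ, IsOpen U → (U ∩ Set.Ioi 1).Nonempty →
      ENNReal.ofReal s ≤ dimH {θ : ℝ | θ ∈ U ∧ 1 < θ ∧ ∃ N : ℕ, ∀ n : ℕ, N ≤ n →
        ⌊θ ^ (c ^ n)⌋₊ ∈ {m : ℕ | Free m (κ * Fr (Real.log m)) ∧
          ∀ j, Free (α n j * m + β n j) (κ * Fr (Real.log m))}} := by
  obtain ⟨ε, hε⟩ : ∃ ε, ε = 1 / (τ + 2) := ⟨_, rfl⟩
  have hε0 : 0 < ε := by rw [hε]; positivity
  have hε1 : ε ≤ 1 / 2 := by
    rw [hε]
    apply one_div_le_one_div_of_le (by norm_num) (by linarith)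
  have hετ : 1 - ε * (1 + τ) = ε := by
    rw [hε]; field_simp; ring
  obtain ⟨κ₁, hκ₁, Z₀, hZ⟩ := Pool.Agent.Results.MP_f9960f_nt.SeveralRealMultiples.result.1 r ε hr
    hε0 (by linarith)
  obtain ⟨a, ha⟩ : ∃ a, a = eta c s / (2 * c) := ⟨_, rfl⟩
  have hη0 := eta_pos hc hs1
  have hc0 : 0 < c := by linarith
  have ha0 : 0 < a := by rw [ha]; positivity
  have ha1 : a ≤ 1 / 2 := by
    have h1 := eta_le hc hs0 hs1
    rw [ha, div_le_iff₀ (by positivity)]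
    linarith
  obtain ⟨L₀, hL₀⟩ := Fr_comp (a / 2) (by linarith)
  refine ⟨κ₁ * (a / 2 / 8), by positivity, ?_⟩
  intro b hb α β hα hβ U hU hne
  apply mills_dense c s hc hs0 hs1 _ _ U hU hne
  intro ϑ hϑ
  rw [← ha]
  have ev : ∀ᶠ X : ℝ in atTop, 4 ≤ X ∧ Z₀ ≤ X ^ a ∧ 1 ≤ b * (X ^ a) ^ ε ∧
      2 ≤ b * X ^ (1 / 2 : ℝ) ∧ L₀ ≤ Real.log X := by
    filter_upwards [eventually_ge_atTop 4, (tendsto_rpow_atTop ha0).eventually_ge_atTop Z₀,
      (((tendsto_rpow_atTop hε0).comp (tendsto_rpow_atTop ha0)).const_mul_atTop hb).eventually_ge_atTop 1,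
      ((tendsto_rpow_atTop (by norm_num : (0 : ℝ) < 1 / 2)).const_mul_atTop hb).eventually_ge_atTop 2,
      Real.tendsto_log_atTop.eventually_ge_atTop L₀] with X h1 h2 h3 h4 h5
    exact ⟨h1, h2, h3, h4, h5⟩
  obtain ⟨X₁, hX₁⟩ := eventually_atTop.1 ev
  have t0 : Tendsto (fun n : ℕ => ϑ ^ (c ^ n)) atTop atTop := by
    have t1 : Tendsto (fun N : ℕ => c ^ N) atTop atTop := tendsto_pow_atTop_atTop_of_one_lt hc
    have e1 : Tendsto (fun y : ℝ => ϑ ^ y) atTop atTop := by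
      have := Real.tendsto_exp_atTop.comp (tendsto_id.const_mul_atTop (Real.log_pos hϑ))
      refine this.congr fun y => ?_
      simp only [Function.comp, id]
      rw [Real.rpow_def_of_pos (by linarith)]
    exact e1.comp t1
  obtain ⟨n₁, hn₁⟩ := eventually_atTop.1 ((t0.eventually_ge_atTop X₁).and
    (hβ (Real.log ϑ / 2) (by have := Real.log_pos hϑ; linarith)))
  refine ⟨n₁, fun n hn X hX z hz1 hz2 => ?_⟩
  obtain ⟨hnX, hnβ⟩ := hn₁ n hn
  obtain ⟨b1, b2, b3, b4, b5⟩ := hX₁ X (hnX.trans hX)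
  have hX0 : 0 < X := by linarith
  have hϑX : 0 < ϑ ^ (c ^ n) := Real.rpow_pos_of_pos (by linarith) _
  obtain ⟨Z, hZdef⟩ : ∃ Z, Z = X ^ a := ⟨_, rfl⟩
  rw [← hZdef] at b2 b3 ⊢
  have hZ1 : 1 ≤ Z := by rw [hZdef]; exact Real.one_le_rpow (by linarith) ha0.le
  have hZ0 : 0 < Z := by linarith
  have hXhalf : 0 < X ^ (1 / 2 : ℝ) := by positivity
  have hZhalf : Z ≤ X ^ (1 / 2 : ℝ) := by
    rw [hZdef]; exact Real.rpow_le_rpow_of_exponent_le (by linarith) ha1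
  have hZε : Z ^ ε ≤ X ^ (1 / 2 : ℝ) := by
    refine le_trans ?_ hZhalf
    have := Real.rpow_le_rpow_of_exponent_le hZ1 (by linarith : ε ≤ 1)
    simpa using this
  have hXX : X ^ (1 / 2 : ℝ) * X ^ (1 / 2 : ℝ) = X := by
    rw [← Real.rpow_add hX0]; norm_num
  have hhalf1 : 1 ≤ X ^ (1 / 2 : ℝ) := Real.one_le_rpow (by linarith) (by norm_num)
  -- the offsets
  have hβ' : ∀ j, |β n j| ≤ X ^ (1 / 2 : ℝ) := by
    intro j
    refine (hnβ j).trans ?_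
    have e1 : Real.exp (Real.log ϑ / 2 * c ^ n) = (ϑ ^ (c ^ n)) ^ (1 / 2 : ℝ) := by
      rw [← Real.rpow_mul (by linarith), Real.rpow_def_of_pos (by linarith)]
      congr 1; ring
    rw [e1]
    exact Real.rpow_le_rpow hϑX.le hX (by norm_num)
  obtain ⟨m, m1, m2, m3, m4⟩ := hZ Z b2 (α n) (β n) (by
    intro h hh hhZ k
    have hHle : ∀ j, |h j| ≤ ((⌊Z ^ ε⌋₊ : ℕ) : ℤ) := by
      intro j
      have e1 := hhZ j
      have e2 : ((|h j|.toNat : ℕ) : ℤ) = |h j| := Int.toNat_of_nonneg (abs_nonneg _)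
      rw [← e2]
      have : |h j|.toNat ≤ ⌊Z ^ ε⌋₊ := by
        apply Nat.le_floor
        have e3 : ((|h j|.toNat : ℕ) : ℝ) = |(h j : ℝ)| := by
          have : (((|h j|.toNat : ℕ) : ℤ) : ℝ) = ((|h j| : ℤ) : ℝ) := by rw [e2]
          rw [Int.cast_natCast, Int.cast_abs] at this
          exact this
        rw [e3]; exact e1
      exact_mod_cast this
    have h1 := (hα n).2 ⌊Z ^ ε⌋₊ h hh hHle k
    refine le_trans ?_ h1
    have hHpos : 0 < ⌊Z ^ ε⌋₊ := by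
      rw [Nat.floor_pos]
      exact Real.one_le_rpow hZ1 hε0.le
    have e1 : (Z ^ ε) ^ (-τ) ≤ ((⌊Z ^ ε⌋₊ : ℕ) : ℝ) ^ (-τ) := by
      apply Real.rpow_le_rpow_of_nonpos (by exact_mod_cast hHpos) _ (by linarith)
      exact Nat.floor_le (by positivity)
    have e2 : Z ^ (-(1 - ε)) ≤ b * (Z ^ ε) ^ (-τ) := by
      rw [← Real.rpow_mul hZ0.le]
      have e3 : Z ^ (-(1 - ε)) = Z ^ (ε * -τ) * Z ^ (-ε) := by
        rw [← Real.rpow_add hZ0]
        congr 1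
        have : 1 - ε * (1 + τ) = ε := hετ
        linarith
      rw [e3, mul_comm b]
      apply mul_le_mul_of_nonneg_left _ (by positivity)
      rw [Real.rpow_neg hZ0.le]
      rw [inv_le_comm₀ (by positivity) hb, inv_le_iff_one_le_mul₀ hb, mul_comm]
      exact b3
    exact e2.trans (mul_le_mul_of_nonneg_left e1 hb.le)) z (by
      have : X ^ (1 / 2 : ℝ) ≤ X := by nlinarith
      linarith) (by
    intro m hm _ j
    have e1 : b * X ≤ α n j * m := by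
      have h1 : b ≤ α n j := (hα n).1 j
      have h2 : X ≤ m := by linarith
      exact mul_le_mul h1 h2 hX0.le (by linarith)
    have e2 := neg_abs_le (β n j)
    have e3 := hβ' j
    have e4 : 2 * X ^ (1 / 2 : ℝ) ≤ b * X := by
      calc 2 * X ^ (1 / 2 : ℝ) ≤ (b * X ^ (1 / 2 : ℝ)) * X ^ (1 / 2 : ℝ) :=
            mul_le_mul_of_nonneg_right b4 hXhalf.le
        _ = b * X := by rw [mul_assoc, hXX]
    linarith)
  -- the comparison of the scales
  have hzm : (z : ℝ) < m := m1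
  have hXm : X ≤ m := by linarith
  have hmX : (m : ℝ) ≤ X * X := by
    have : X ^ (1 / 2 : ℝ) ≤ X := by nlinarith
    have e1 : (m : ℝ) ≤ 4 * X := by linarith
    nlinarith
  have hlogX : 0 < Real.log X := Real.log_pos (by linarith)
  have hL : Real.log X ≤ Real.log m := Real.log_le_log hX0 hXm
  have hL2 : Real.log m ≤ 2 * Real.log X := by
    have e1 : Real.log m ≤ Real.log (X * X) := Real.log_le_log (by linarith) hmX
    rw [Real.log_mul hX0.ne' hX0.ne'] at e1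
    linarith
  have hla : Real.log Z = a * Real.log X := by rw [hZdef]; exact Real.log_rpow hX0 a
  have h2 := (hL₀ (Real.log m) (Real.log Z) (b5.trans hL) (by rw [hla]; nlinarith)
    (by rw [hla]; nlinarith)).1
  have h3 : κ₁ * (a / 2 / 8) * Fr (Real.log m) ≤ κ₁ * Fr (Real.log Z) := by
    rw [mul_assoc]
    exact mul_le_mul_of_nonneg_left h2 hκ₁.le
  refine ⟨m, ⟨fun q hq => ?_, fun j q hq => ?_⟩, by exact_mod_cast m1, m2⟩
  · exact lt_of_le_of_lt h3 (m3 q hq)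
  · exact lt_of_le_of_lt h3 (m4 j q hq)

end Pool.Agent.X10.ML
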