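import Pool.Agent.X10.ML.Main2
import Pool.Agent.X10.ML.Dense

set_option autoImplicit false

/-! # Mills sequences that are very close to given real numbers (helper10) -/

namespace Pool.Agent.X10.ML

open Finset Filter

/-- a set of real numbers `A` meets the unit cell of `x` -/
def Cell (A : Set ℝ) (x : ℕ) : Prop := ∃ a ∈ A, (x : ℝ) ≤ a ∧ a < x + 1

/-- the relation between consecutive nodes -/
def Rel (c : ℝ) (A : ℕ → Set ℝ) (δ : ℕ → ℝ) (n x y : ℕ) : Prop :=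
  Cell (A (n + 1)) y ∧ (Cell (A n) x → ∃ a ∈ A n, ∃ u : ℝ, 0 < u ∧
    (∀ t, u ≤ t → t ≤ u + δ n → |t - a| ≤ δ n) ∧ u ^ c ≤ y ∧ (y : ℝ) + 1 ≤ (u + δ n) ^ c)

/-- **Mills sequences near given real numbers.** -/
theorem mills_near (c s : ℝ) (hc : 1 < c) (hs0 : 0 < s) (hs1 : s < 1) (A : ℕ → Set ℝ) (δ : ℕ → ℝ)
    (hδ0 : ∀ n, 0 < δ n) (hδ1 : ∀ n, δ n ≤ 1)
    (hδ : ∀ ε : ℝ, 0 < ε → ∀ᶠ n : ℕ in atTop, Real.exp (-(ε * c ^ n)) ≤ δ n)
    (hA : ∀ ϑ : ℝ, 1 < ϑ → ∃ n₁ : ℕ, ∀ n : ℕ, n₁ ≤ n → ∀ X H : ℝ, ϑ ^ (c ^ n) ≤ X →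
      X ^ (1 - 1 / c - eta c s / (2 * c)) ≤ H → H ≤ X → ∃ T : Finset ℕ,
      (∀ y ∈ T, X ≤ y ∧ (y : ℝ) + 1 ≤ X + H ∧ Cell (A n) y) ∧
      X ^ (-(eta c s / (2 * c))) * H ≤ T.card)
    (U : Set ℝ) (hU : IsOpen U) (hne : (U ∩ Set.Ioi 1).Nonempty) :
    ENNReal.ofReal s ≤ dimH {θ : ℝ | θ ∈ U ∧ 1 < θ ∧ ∃ N : ℕ, ∀ n : ℕ, N ≤ n →
      ∃ a ∈ A n, |θ ^ (c ^ n) - a| ≤ δ n} := by
  classical
  obtain ⟨η, hη⟩ : ∃ η, η = eta c s := ⟨_, rfl⟩
  have hη0 : 0 < η := by rw [hη]; exact eta_pos hc hs1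
  have hηc : η ≤ (c - 1) / 4 := by rw [hη]; exact eta_le hc hs0 hs1
  obtain ⟨ζ, hζ⟩ : ∃ ζ, ζ = eta c s / (2 * c) := ⟨_, rfl⟩
  rw [← hζ] at hA
  have hc0 : 0 < c := by linarith
  have hζ0 : 0 < ζ := by rw [hζ, ← hη]; positivity
  have hcζ : c * ζ = η / 2 := by rw [hζ, ← hη]; field_simp
  -- the main step: the relation
  have key : ENNReal.ofReal s ≤ dimH {θ : ℝ | θ ∈ U ∧ 1 < θ ∧ ∃ N : ℕ, ∀ n : ℕ, N ≤ n →
      Rel c A δ n ⌊θ ^ (c ^ n)⌋₊ ⌊θ ^ (c ^ (n + 1))⌋₊} := by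
    apply mills_rel c s hc hs0 hs1 (Rel c A δ) _ U hU hne
    intro ϑ hϑ
    obtain ⟨n₁, hA⟩ := hA ϑ hϑ
    have hlϑ : 0 < Real.log ϑ := Real.log_pos hϑ
    have ev : ∀ᶠ x : ℝ in atTop, 1 ≤ x ∧ 2 ≤ x ^ c := by
      filter_upwards [eventually_ge_atTop 1,
        (tendsto_rpow_atTop hc0).eventually_ge_atTop 2] with x b1 b2
      exact ⟨b1, b2⟩
    obtain ⟨x₁, hx₁⟩ := eventually_atTop.1 ev
    have t0 : Tendsto (fun n : ℕ => ϑ ^ (c ^ n)) atTop atTop := by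
      have t1 : Tendsto (fun N : ℕ => c ^ N) atTop atTop := tendsto_pow_atTop_atTop_of_one_lt hc
      have e1 : Tendsto (fun y : ℝ => ϑ ^ y) atTop atTop := by
        have := Real.tendsto_exp_atTop.comp (tendsto_id.const_mul_atTop (Real.log_pos hϑ))
        refine this.congr fun y => ?_
        simp only [Function.comp, id]
        rw [Real.rpow_def_of_pos (by linarith)]
      exact e1.comp t1
    obtain ⟨n₂, hn₂⟩ := eventually_atTop.1 ((t0.eventually_ge_atTop x₁).and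
      (hδ (ζ * c * Real.log ϑ) (by positivity)))
    refine ⟨max n₁ n₂, fun n hnn x hxx => ?_⟩
    have hn : n₁ ≤ n := (le_max_left _ _).trans hnn
    obtain ⟨g1, g2⟩ := hn₂ n ((le_max_right _ _).trans hnn)
    obtain ⟨b1, b2⟩ := hx₁ x (g1.trans hxx)
    have hx0 : (0 : ℝ) < x := by linarith
    -- the subinterval
    obtain ⟨u, hu1, hu2, hu3⟩ : ∃ u : ℝ, (x : ℝ) ≤ u ∧ u + δ n ≤ x + 1 ∧
        (Cell (A n) x → ∃ a ∈ A n, ∀ t, u ≤ t → t ≤ u + δ n → |t - a| ≤ δ n) := by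
      by_cases hcell : Cell (A n) x
      · obtain ⟨a, ha, a1, a2⟩ := hcell
        have hd1 := hδ1 n
        have hd0 := hδ0 n
        by_cases h : a + δ n ≤ x + 1
        · refine ⟨a, a1, h, fun _ => ⟨a, ha, fun t t1 t2 => ?_⟩⟩
          rw [abs_le]
          constructor <;> linarith
        · push Not at h
          refine ⟨x + 1 - δ n, by linarith, by linarith, fun _ => ⟨a, ha, fun t t1 t2 => ?_⟩⟩
          rw [abs_le]
          constructor <;> linarith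
      · exact ⟨x, le_rfl, by linarith [hδ1 n], fun h => absurd h hcell⟩
    have hu0 : 0 < u := by linarith
    obtain ⟨X, hX⟩ : ∃ X, X = u ^ c := ⟨_, rfl⟩
    have hX0 : 0 < X := by rw [hX]; positivity
    have hXx : (x : ℝ) ^ c ≤ X := by rw [hX]; exact Real.rpow_le_rpow hx0.le hu1 hc0.le
    have hX1 : 1 ≤ X := by linarith
    have hϑX : ϑ ^ (c ^ (n + 1)) ≤ X := by
      refine le_trans ?_ hXx
      rw [pow_succ, Real.rpow_mul (by linarith)]
      exact Real.rpow_le_rpow (Real.rpow_nonneg (by linarith) _) hxx hc0.le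
    -- the width
    have hδX : X ^ (-ζ) ≤ δ n := by
      refine le_trans ?_ g2
      have e1 : X ^ (-ζ) ≤ (ϑ ^ (c ^ (n + 1))) ^ (-ζ) :=
        Real.rpow_le_rpow_of_nonpos (Real.rpow_pos_of_pos (by linarith) _) hϑX (by linarith)
      refine e1.trans (le_of_eq ?_)
      rw [← Real.rpow_mul (by linarith), Real.rpow_def_of_pos (by linarith)]
      congr 1
      rw [pow_succ]; ring
    have hd0 := hδ0 n
    obtain ⟨H, hH⟩ : ∃ H, H = δ n * X ^ (1 - 1 / c) := ⟨_, rfl⟩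
    have hXc : u ^ (c - 1) = X ^ (1 - 1 / c) := by
      rw [hX, ← Real.rpow_mul hu0.le]
      congr 1; field_simp
    have hH1 : X ^ (1 - 1 / c - ζ) ≤ H := by
      rw [hH, show 1 - 1 / c - ζ = -ζ + (1 - 1 / c) by ring, Real.rpow_add hX0]
      exact mul_le_mul_of_nonneg_right hδX (by positivity)
    have hH2 : H ≤ X := by
      rw [hH]
      calc δ n * X ^ (1 - 1 / c) ≤ 1 * X ^ (1 - 1 / c) :=
            mul_le_mul_of_nonneg_right (hδ1 n) (by positivity)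
        _ ≤ X ^ (1 : ℝ) := by
            rw [one_mul]
            have h1c : 0 < 1 / c := by positivity
            exact Real.rpow_le_rpow_of_exponent_le hX1 (by linarith)
        _ = X := Real.rpow_one X
    have hH0 : 0 < H := by rw [hH]; positivity
    -- the end of the interval
    have hend : X + H < (u + δ n) ^ c := by
      have h1 : 1 + c * (δ n / u) ≤ (1 + δ n / u) ^ c :=
        one_add_mul_self_le_rpow_one_add (by have : 0 < δ n / u := by positivity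
                                             linarith) hc.le
      have h2 : (u + δ n) ^ c = u ^ c * (1 + δ n / u) ^ c := by
        rw [← Real.mul_rpow hu0.le (by positivity)]
        congr 1
        field_simp
      rw [h2]
      have h3 : u ^ c * (1 + c * (δ n / u)) = X + c * H := by
        rw [hH, ← hXc, Real.rpow_sub_one hu0.ne', hX]
        ring
      have h4 := mul_le_mul_of_nonneg_left h1 (by positivity : 0 ≤ u ^ c)
      rw [h3] at h4
      nlinarith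
    obtain ⟨T, hT1, hT2⟩ := hA (n + 1) (by omega) X H hϑX hH1 hH2
    refine ⟨T, fun y hy => ?_, ?_⟩
    · obtain ⟨y1, y2, y3⟩ := hT1 y hy
      refine ⟨⟨y3, fun hcell => ?_⟩, hXx.trans y1, ?_⟩
      · obtain ⟨a, ha, hat⟩ := hu3 hcell
        exact ⟨a, ha, u, hu0, hat, by rw [← hX]; exact y1, by linarith⟩
      · have : (u + δ n) ^ c ≤ ((x : ℝ) + 1) ^ c := Real.rpow_le_rpow (by linarith) hu2 hc0.le
        linarith
    · refine le_trans ?_ hT2
      have e1 : X ^ (1 - 1 / c - 2 * ζ) ≤ X ^ (-ζ) * H := by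
        rw [show 1 - 1 / c - 2 * ζ = -ζ + (1 - 1 / c - ζ) by ring, Real.rpow_add hX0]
        exact mul_le_mul_of_nonneg_left hH1 (by positivity)
      refine le_trans ?_ e1
      have h0 : 0 ≤ 1 - 1 / c - 2 * ζ := by
        have : 0 ≤ c * (1 - 1 / c - 2 * ζ) := by
          have e : c * (1 - 1 / c - 2 * ζ) = c - 1 - 2 * (c * ζ) := by field_simp
          rw [e, hcζ]; linarith
        exact nonneg_of_mul_nonneg_right this hc0
      calc (x : ℝ) ^ (c - 1 - eta c s) = ((x : ℝ) ^ c) ^ (1 - 1 / c - 2 * ζ) := by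
            rw [← Real.rpow_mul hx0.le]
            congr 1
            have e : c * (1 - 1 / c - 2 * ζ) = c - 1 - 2 * (c * ζ) := by field_simp
            rw [e, hcζ, hη]; ring
        _ ≤ X ^ (1 - 1 / c - 2 * ζ) := Real.rpow_le_rpow (by positivity) hXx h0
  refine key.trans (dimH_mono ?_)
  rintro θ ⟨t1, t2, N, t3⟩
  refine ⟨t1, t2, N + 1, fun n hn => ?_⟩
  obtain ⟨k, rfl⟩ : ∃ k, n = k + 1 := ⟨n - 1, by omega⟩
  obtain ⟨h1, -⟩ := t3 k (by omega)
  obtain ⟨-, h2⟩ := t3 (k + 1) (by omega)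
  obtain ⟨a, ha, u, hu0, hat, g1, g2⟩ := h2 h1
  refine ⟨a, ha, hat _ ?_ ?_⟩
  · have hθ : (θ ^ (c ^ (k + 1))) ^ c = θ ^ (c ^ (k + 1 + 1)) := by
      rw [← Real.rpow_mul (by linarith), pow_succ c (k + 1)]
    have h3 : (⌊θ ^ (c ^ (k + 1 + 1))⌋₊ : ℝ) ≤ θ ^ (c ^ (k + 1 + 1)) :=
      Nat.floor_le (Real.rpow_nonneg (by linarith) _)
    by_contra hcon
    push Not at hcon
    have h4 := Real.rpow_lt_rpow (Real.rpow_nonneg (by linarith) _) hcon hc0
    rw [hθ] at h4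
    linarith
  · have hθ : (θ ^ (c ^ (k + 1))) ^ c = θ ^ (c ^ (k + 1 + 1)) := by
      rw [← Real.rpow_mul (by linarith), pow_succ c (k + 1)]
    have h3 : θ ^ (c ^ (k + 1 + 1)) < (⌊θ ^ (c ^ (k + 1 + 1))⌋₊ : ℝ) + 1 := Nat.lt_floor_add_one _
    by_contra hcon
    push Not at hcon
    have h4 := Real.rpow_lt_rpow (by have := hδ0 (k + 1); linarith) hcon hc0
    rw [hθ] at h4
    linarith

end Pool.Agent.X10.ML
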