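import Pool.Agent.X10.ML.Zeros
import Pool.Agent.Results.MP_6bc78b_nt.RunsOfSimpleZeros

set_option autoImplicit false

/-! # Mills sequences that are very close to runs of simple zeros of Hardy's function (helper10) -/

namespace Pool.Agent.X10.ML

open Finset Filter Complex
open Pool.Agent.Results.MP_6bc78b_nt.RunsOfSimpleZeros (Z zeros N c runs phase)

/-- the points `t` which start a run of `m + 1` simple zeros of `Z` of total length at most
`B / log t`, without other ordinates of zeros of zeta in between -/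
def RunStart (m : ℕ) (B : ℝ) : Set ℝ :=
  {t : ℝ | ∃ u : Fin (m + 1) → ℝ, StrictMono u ∧ u 0 = t ∧
    (∀ j, Z (u j) = 0 ∧ deriv Z (u j) ≠ 0) ∧
    (∀ s : ℂ, riemannZeta s = 0 → 0 < s.re → s.re < 1 → u 0 ≤ s.im → s.im ≤ u (Fin.last m) →
      ∃ j, s.im = u j) ∧ u (Fin.last m) - u 0 ≤ B / Real.log t}

lemma runStart_ordinates (m : ℕ) (B : ℝ) : Ordinates riemannZeta (RunStart m B) := by
  rintro t ⟨u, h1, h2, h3, -, -⟩
  have h4 := (h3 0).1
  rw [h2, Pool.Agent.Results.MP_6bc78b_nt.RunsOfSimpleZeros.Z_zero_iff] at h4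
  exact ⟨1 / 2 + I * t, by simp, by simp; norm_num, by simp, h4⟩

lemma runs_count (m : ℕ) (h : ℝ) (h0 : 0 < h) (h1 : h ≤ 1) (hm : 0 < 2 - c h - m * ((c h - 1) / 2)) :
    ∃ B : ℝ, ∃ κ T₀ : ℝ, 0 < κ ∧ ∀ T H : ℝ, T₀ ≤ T → T ^ h ≤ H → H ≤ T →
      κ * (H * Real.log T) ≤ ((RunStart m B ∩ Set.Ioc T (T + H)).ncard : ℝ) := by
  obtain ⟨w, hw⟩ : ∃ w, w = 2 - c h - m * ((c h - 1) / 2) := ⟨_, rfl⟩
  rw [← hw] at hm
  obtain ⟨A, hA⟩ : ∃ A : ℝ, A = 4 * (m + 1) / w := ⟨_, rfl⟩
  have hA0 : 0 < A := by rw [hA]; positivity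
  have hmA : m / A ≤ w / 4 := by
    rw [div_le_iff₀ hA0, hA]
    have : w / 4 * (4 * (m + 1) / w) = m + 1 := by field_simp
    rw [this]; linarith
  obtain ⟨T1, hT1⟩ := Pool.Agent.Results.MP_6bc78b_nt.RunsOfSimpleZeros.result.1 m h (w / 4) h0 h1
    (by linarith)
  obtain ⟨C, hC, hcs⟩ := H295SI.countShort riemannZeta H370.good_zeta
  have ev : ∀ᶠ T : ℝ in atTop, T1 ≤ T ∧ 10 ≤ T ∧ 3 ≤ T ^ h ∧ 16 * C * Real.pi ≤ Real.log T ∧
      16 * C * Real.pi * Real.log T ≤ T ^ h := by
    have lg := (isLittleO_log_rpow_atTop h0).def (c := 1 / (16 * C * Real.pi)) (by positivity)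
    filter_upwards [eventually_ge_atTop T1, eventually_ge_atTop 10,
      (tendsto_rpow_atTop h0).eventually_ge_atTop 3,
      Real.tendsto_log_atTop.eventually_ge_atTop (16 * C * Real.pi), lg] with T e1 e2 e3 e4 e5
    refine ⟨e1, e2, e3, e4, ?_⟩
    rw [Real.norm_of_nonneg (Real.log_nonneg (by linarith)), Real.norm_of_nonneg (by positivity)] at e5
    calc 16 * C * Real.pi * Real.log T ≤ 16 * C * Real.pi * (1 / (16 * C * Real.pi) * T ^ h) :=
          mul_le_mul_of_nonneg_left e5 (by positivity)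
      _ = T ^ h := by field_simp
  obtain ⟨T₀, hT₀⟩ := eventually_atTop.1 ev
  have hpi := Real.pi_pos
  refine ⟨A * (8 * Real.pi), w / 2 * (1 / (4 * Real.pi)), T₀, by positivity, fun T H hT hTH hHT => ?_⟩
  obtain ⟨e1, e2, e3, e4, e5⟩ := hT₀ T hT
  have hlog : 0 < Real.log T := Real.log_pos (by linarith)
  have hH3 : 3 ≤ H := e3.trans hTH
  have hH0 : 0 < H := by linarith
  -- the number of zeros
  have hN : H * Real.log T / (4 * Real.pi) ≤ (N T (T + H) : ℝ) := by
    have h2 := (hcs T e2 H hH3 hHT T (T + H) le_rfl (by linarith) (by linarith) le_rfl).1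
    rw [← Pool.Agent.Results.MP_6bc78b_nt.RunsOfSimpleZeros.N_eq] at h2
    have h3 := (abs_le.1 h2).1
    have h4 : C * (H + Real.log T ^ 2) ≤ H * Real.log T / (8 * Real.pi) + H * Real.log T / (8 * Real.pi) := by
      have h5 : C * H ≤ H * Real.log T / (8 * Real.pi) := by
        rw [le_div_iff₀ (by positivity)]
        have := mul_le_mul_of_nonneg_left e4 hH0.le
        nlinarith
      have h6 : C * Real.log T ^ 2 ≤ H * Real.log T / (8 * Real.pi) := by
        rw [le_div_iff₀ (by positivity)]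
        have h7 : 16 * C * Real.pi * Real.log T ≤ H := e5.trans hTH
        have := mul_le_mul_of_nonneg_right h7 hlog.le
        nlinarith
      linarith
    have h5 : H * Real.log T / (2 * Real.pi) = H * Real.log T / (4 * Real.pi) +
        (H * Real.log T / (8 * Real.pi) + H * Real.log T / (8 * Real.pi)) := by
      field_simp; ring
    linarith
  have hNpos : (0 : ℝ) < N T (T + H) := lt_of_lt_of_le (by positivity) hN
  have hcount := (hT1 T e1 H hTH hHT A hA0).1
  have hsub : runs m (A * H / N T (T + H)) T (T + H) ⊆ RunStart m (A * (8 * Real.pi)) ∩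
      Set.Ioc T (T + H) := by
    rintro t ⟨u, u1, u2, u3, u4, u5, u6, u7⟩
    have u8 : u 0 ≤ u (Fin.last m) := u1.monotone (Fin.zero_le _)
    have htT : T < t := by rw [← u2]; exact u3
    have htH : t ≤ T + H := by rw [← u2]; linarith
    refine ⟨⟨u, u1, u2, u5, u6, u7.trans ?_⟩, htT, htH⟩
    have hlt : Real.log t ≤ 2 * Real.log T := by
      have : Real.log t ≤ Real.log (T * T) := Real.log_le_log (by linarith) (by nlinarith)
      rwa [Real.log_mul (by linarith) (by linarith), ← two_mul] at this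
    have hlt0 : 0 < Real.log t := Real.log_pos (by linarith)
    rw [div_le_div_iff₀ hNpos hlt0]
    have h6 : H * Real.log t ≤ 8 * Real.pi * N T (T + H) := by
      rw [div_le_iff₀ (by positivity)] at hN
      calc H * Real.log t ≤ H * (2 * Real.log T) := mul_le_mul_of_nonneg_left hlt hH0.le
        _ = 2 * (H * Real.log T) := by ring
        _ ≤ 2 * (N T (T + H) * (4 * Real.pi)) := by linarith
        _ = _ := by ring
    calc A * H * Real.log t = A * (H * Real.log t) := by ring
      _ ≤ A * (8 * Real.pi * N T (T + H)) := mul_le_mul_of_nonneg_left h6 hA0.le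
      _ = _ := by ring
  have hfin : (RunStart m (A * (8 * Real.pi)) ∩ Set.Ioc T (T + H)).Finite := by
    have hz := H370.zset_finite H370.good_zeta T (T + H) (by linarith)
    refine (hz.image Complex.im).subset ?_
    rintro t ⟨ht, ht1, ht2⟩
    obtain ⟨s, s1, s2, s3, s4⟩ := runStart_ordinates _ _ t ht
    exact ⟨s, ⟨s1, s2, by rw [s3]; exact ht1, by rw [s3]; exact ht2, s4⟩, s3⟩
  have h7 : ((runs m (A * H / N T (T + H)) T (T + H)).ncard : ℝ) ≤
      ((RunStart m (A * (8 * Real.pi)) ∩ Set.Ioc T (T + H)).ncard : ℝ) := by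
    exact_mod_cast Set.ncard_le_ncard hsub hfin
  refine le_trans ?_ (hcount.trans h7)
  rw [← hw]
  calc w / 2 * (1 / (4 * Real.pi)) * (H * Real.log T) = w / 2 * (H * Real.log T / (4 * Real.pi)) := by
        ring
    _ ≤ w / 2 * N T (T + H) := mul_le_mul_of_nonneg_left hN (by positivity)
    _ ≤ (w - m / A - w / 4) * N T (T + H) := mul_le_mul_of_nonneg_right (by linarith) hNpos.le

end Pool.Agent.X10.ML
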