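import Pool.Agent.X10.ML.Cantor

set_option autoImplicit false

/-! # The tree of nodes of a Mills-type construction (helper10) -/

namespace Pool.Agent.X10.ML

open Finset

/-- `2 m` elements contain `m` elements that are pairwise at distance at least two times the
difference of the indices -/
lemma exists_spaced (T : Finset ℕ) (m : ℕ) (h : 2 * m ≤ T.card) :
    ∃ f : ℕ → ℕ, (∀ j < m, f j ∈ T) ∧ ∀ j j', j < j' → j' < m → f j + 2 * (j' - j) ≤ f j' := by
  classical
  obtain ⟨g, hg⟩ : ∃ g : Fin T.card ↪o ℕ, g = T.orderEmbOfFin rfl := ⟨_, rfl⟩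
  have hgm : ∀ i, g i ∈ T := fun i => by rw [hg]; exact T.orderEmbOfFin_mem rfl i
  have key : ∀ k : ℕ, ∀ a b : Fin T.card, (b : ℕ) = a + k → g a + k ≤ g b := by
    intro k
    induction k with
    | zero =>
      intro a b hab
      have : a = b := Fin.ext (by omega)
      rw [this]; omega
    | succ k ih =>
      intro a b hab
      have hlt : (a : ℕ) + k < T.card := by have := b.2; omega
      have h1 := ih a ⟨a + k, hlt⟩ rfl
      have h2 : g ⟨a + k, hlt⟩ < g b := g.strictMono (by rw [Fin.lt_def]; simp only; omega)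
      omega
  refine ⟨fun j => if hj : 2 * j < T.card then g ⟨2 * j, hj⟩ else 0, ?_, ?_⟩
  · intro j hj
    have : 2 * j < T.card := by omega
    simp only [this, dif_pos]
    exact hgm _
  · intro j j' hjj hj'
    have h1 : 2 * j < T.card := by omega
    have h2 : 2 * j' < T.card := by omega
    simp only [h1, h2, dif_pos]
    exact key (2 * (j' - j)) _ _ (by simp only; omega)

/-- the node at level `n` of the tree with the children `ch` -/
def node (ch : ℕ → ℕ → ℕ → ℕ) (x₀ : ℕ) (d : ℕ → ℕ) : ℕ → ℕ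
  | 0 => x₀
  | n + 1 => ch n (node ch x₀ d n) (d n)

lemma node_congr (ch : ℕ → ℕ → ℕ → ℕ) (x₀ : ℕ) (d d' : ℕ → ℕ) (n : ℕ) (h : ∀ i < n, d i = d' i) :
    node ch x₀ d n = node ch x₀ d' n := by
  induction n with
  | zero => rfl
  | succ n ih =>
    simp only [node]
    rw [ih (fun i hi => h i (by omega)), h n (by omega)]

/-- a power grows at least linearly -/
lemma rpow_bernoulli {x c : ℝ} (hx : 0 < x) (hc : 1 ≤ c) : x ^ c + c * x ^ (c - 1) ≤ (x + 1) ^ c := by
  have h1 : 1 + c * (1 / x) ≤ (1 + 1 / x) ^ c :=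
    one_add_mul_self_le_rpow_one_add (by have : 0 < 1 / x := by positivity
                                         linarith) hc
  have h2 : (x + 1) ^ c = x ^ c * (1 + 1 / x) ^ c := by
    rw [← Real.mul_rpow hx.le (by positivity)]
    congr 1
    field_simp
  rw [h2]
  have h3 : x ^ c * (1 + c * (1 / x)) = x ^ c + c * x ^ (c - 1) := by
    rw [Real.rpow_sub_one hx.ne']
    ring
  rw [← h3]
  exact mul_le_mul_of_nonneg_left h1 (Real.rpow_nonneg hx.le _)

/-- the distance of two roots -/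
lemma root_sub {u w C : ℝ} (hu : 0 ≤ u) (huw : u ≤ w) (hw : 1 ≤ w) (hC : 1 ≤ C) :
    (w - u) / (C * w) ≤ w ^ (1 / C) - u ^ (1 / C) := by
  have hw0 : 0 < w := by linarith
  have hC0 : 0 < C := by linarith
  have h1 : (1 + (-(1 - u / w))) ^ (1 / C) ≤ 1 + (1 / C) * (-(1 - u / w)) := by
    apply rpow_one_add_le_one_add_mul_self
    · have : 0 ≤ u / w := div_nonneg hu hw0.le
      linarith
    · positivity
    · rw [div_le_one hC0]; exact hC
  have h2 : u ^ (1 / C) = w ^ (1 / C) * (1 + (-(1 - u / w))) ^ (1 / C) := by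
    have : 1 + (-(1 - u / w)) = u / w := by ring
    rw [this, ← Real.mul_rpow hw0.le (div_nonneg hu hw0.le)]
    congr 1
    field_simp
  have h3 : 1 ≤ w ^ (1 / C) := Real.one_le_rpow hw (by positivity)
  have h4 : 0 ≤ (w - u) / (C * w) := div_nonneg (by linarith) (by positivity)
  have h5 : (1 / C) * (1 - u / w) = (w - u) / (C * w) := by
    field_simp
  calc (w - u) / (C * w) ≤ w ^ (1 / C) * ((w - u) / (C * w)) := by
        nlinarith
    _ = w ^ (1 / C) - w ^ (1 / C) * (1 + (1 / C) * (-(1 - u / w))) := by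
        rw [← h5]; ring
    _ ≤ w ^ (1 / C) - u ^ (1 / C) := by
        rw [h2]
        have := mul_le_mul_of_nonneg_left h1 (by linarith : 0 ≤ w ^ (1 / C))
        linarith

/-- **The set of the limit points of a tree.** Let `c > 1`, let every node `x` of level `n` have
`m n` children that lie in `G (n + 1)` and in `[x ^ c, x ^ c + x ^ (c - 1)]` and are separated. Then
there are points `pt d`, one for each sequence `d` of digits, which are in `[x₀, x₀ + 1]`, such
that the integer part of `(pt d) ^ (c ^ n)` is the node of level `n`. -/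
theorem tree (c : ℝ) (hc : 1 < c) (G : ℕ → Set ℕ) (m : ℕ → ℕ) (x₀ : ℕ) (hx₀ : 1 ≤ x₀)
    (hx1 : 1 < (c - 1) * (x₀ : ℝ) ^ (c - 1))
    (ch : ℕ → ℕ → ℕ → ℕ)
    (h1 : ∀ (n x : ℕ), (x₀ : ℝ) ^ (c ^ n) ≤ x → ∀ j < m n, ch n x j ∈ G (n + 1) ∧
      (x : ℝ) ^ c ≤ ch n x j ∧ (ch n x j : ℝ) ≤ (x : ℝ) ^ c + (x : ℝ) ^ (c - 1))
    (h2 : ∀ (n x : ℕ), (x₀ : ℝ) ^ (c ^ n) ≤ x → ∀ j j', j < j' → j' < m n →
      ch n x j + 2 * (j' - j) ≤ ch n x j') :
    ∃ pt : ((n : ℕ) → Fin (m n)) → ℝ,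
      (∀ d, (x₀ : ℝ) ≤ pt d ∧ pt d ≤ x₀ + 1 ∧ ∀ n, 1 ≤ n → ⌊pt d ^ (c ^ n)⌋₊ ∈ G n) ∧
      ∀ (d d' : (n : ℕ) → Fin (m n)) (n : ℕ), (∀ i < n, d i = d' i) → d n ≠ d' n →
        |(((d n : ℕ) : ℝ)) - ((d' n : ℕ) : ℝ)| *
          (1 / (c ^ (n + 1) * ((x₀ : ℝ) + 1) ^ (c ^ (n + 1)))) ≤ |pt d - pt d'| := by
  classical
  have hx₀r : (1 : ℝ) ≤ x₀ := by exact_mod_cast hx₀
  have hc0 : 0 < c := by linarith
  have hcn : ∀ n : ℕ, 1 ≤ c ^ n := fun n => one_le_pow₀ hc.le
  -- the nodes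
  obtain ⟨X, hX⟩ : ∃ X : ((n : ℕ) → Fin (m n)) → ℕ → ℕ,
    X = fun d n => node ch x₀ (fun i => (d i : ℕ)) n := ⟨_, rfl⟩
  have X0 : ∀ d, X d 0 = x₀ := fun d => by rw [hX]; rfl
  have XS : ∀ d n, X d (n + 1) = ch n (X d n) (d n : ℕ) := fun d n => by rw [hX]; rfl
  have hlow : ∀ d n, (x₀ : ℝ) ^ (c ^ n) ≤ X d n := by
    intro d n
    induction n with
    | zero => rw [X0]; simp
    | succ n ih =>
      rw [XS]
      have h3 := (h1 n (X d n) ih (d n : ℕ) (d n).2).2.1
      refine le_trans ?_ h3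
      have : (x₀ : ℝ) ^ (c ^ (n + 1)) = ((x₀ : ℝ) ^ (c ^ n)) ^ c := by
        rw [← Real.rpow_mul (by linarith), pow_succ]
      rw [this]
      exact Real.rpow_le_rpow (by positivity) ih hc0.le
  have hone : ∀ d n, (1 : ℝ) ≤ X d n := fun d n =>
    (Real.one_le_rpow hx₀r (by linarith [hcn n])).trans (hlow d n)
  have hbig : ∀ d n, 1 < (c - 1) * (X d n : ℝ) ^ (c - 1) := by
    intro d n
    refine lt_of_lt_of_le hx1 ?_
    apply mul_le_mul_of_nonneg_left _ (by linarith)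
    apply Real.rpow_le_rpow (by linarith) _ (by linarith)
    refine le_trans ?_ (hlow d n)
    have := Real.rpow_le_rpow_of_exponent_le hx₀r (hcn n)
    simpa using this
  have hchild : ∀ d n, X d (n + 1) ∈ G (n + 1) ∧ (X d n : ℝ) ^ c ≤ X d (n + 1) ∧
      ((X d (n + 1) : ℕ) : ℝ) ≤ (X d n : ℝ) ^ c + (X d n : ℝ) ^ (c - 1) := by
    intro d n
    rw [XS]
    exact h1 n (X d n) (hlow d n) (d n : ℕ) (d n).2
  have hstep : ∀ d n, (X d (n + 1) : ℝ) + 1 < ((X d n : ℝ) + 1) ^ c := by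
    intro d n
    have h3 := (hchild d n).2.2
    have h4 := rpow_bernoulli (x := (X d n : ℝ)) (by linarith [hone d n]) hc.le
    have h5 := hbig d n
    nlinarith
  have hup : ∀ d n, (X d n : ℝ) + 1 ≤ ((x₀ : ℝ) + 1) ^ (c ^ n) := by
    intro d n
    induction n with
    | zero => rw [X0]; simp
    | succ n ih =>
      refine (hstep d n).le.trans ?_
      have : ((x₀ : ℝ) + 1) ^ (c ^ (n + 1)) = (((x₀ : ℝ) + 1) ^ (c ^ n)) ^ c := by
        rw [← Real.rpow_mul (by linarith), pow_succ]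
      rw [this]
      exact Real.rpow_le_rpow (by positivity) ih hc0.le
  -- the end points of the intervals
  obtain ⟨lo, hlo⟩ : ∃ lo : ((n : ℕ) → Fin (m n)) → ℕ → ℝ,
    lo = fun d n => (X d n : ℝ) ^ (1 / c ^ n) := ⟨_, rfl⟩
  obtain ⟨hi, hhi⟩ : ∃ hi : ((n : ℕ) → Fin (m n)) → ℕ → ℝ,
    hi = fun d n => ((X d n : ℝ) + 1) ^ (1 / c ^ n) := ⟨_, rfl⟩
  have hlomono : ∀ d, Monotone (lo d) := by
    intro d
    apply monotone_nat_of_le_succ
    intro n
    rw [hlo]
    simp only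
    have h3 := (hchild d n).2.1
    have hp : (0 : ℝ) < c ^ n := by positivity
    have h4 : (X d n : ℝ) ^ (1 / c ^ n) = ((X d n : ℝ) ^ c) ^ (1 / c ^ (n + 1)) := by
      rw [← Real.rpow_mul (by linarith [hone d n])]
      congr 1
      rw [pow_succ]
      field_simp
    rw [h4]
    exact Real.rpow_le_rpow (by positivity) h3 (by positivity)
  have hhianti : ∀ d, Antitone (hi d) := by
    intro d
    apply antitone_nat_of_succ_le
    intro n
    rw [hhi]
    simp only
    have h3 := (hstep d n).le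
    have hp : (0 : ℝ) < c ^ n := by positivity
    have h4 : ((X d n : ℝ) + 1) ^ (1 / c ^ n) = (((X d n : ℝ) + 1) ^ c) ^ (1 / c ^ (n + 1)) := by
      rw [← Real.rpow_mul (by linarith [hone d n])]
      congr 1
      rw [pow_succ]
      field_simp
    rw [h4]
    exact Real.rpow_le_rpow (by positivity) h3 (by positivity)
  have hlohi : ∀ d n k, lo d n ≤ hi d k := by
    intro d n k
    have h3 : ∀ i, lo d i ≤ hi d i := by
      intro i
      rw [hlo, hhi]
      exact Real.rpow_le_rpow (by positivity) (by linarith) (by positivity)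
    calc lo d n ≤ lo d (max n k) := hlomono d (le_max_left _ _)
      _ ≤ hi d (max n k) := h3 _
      _ ≤ hi d k := hhianti d (le_max_right _ _)
  obtain ⟨pt, hpt⟩ : ∃ pt : ((n : ℕ) → Fin (m n)) → ℝ, pt = fun d => ⨆ n, lo d n := ⟨_, rfl⟩
  have hptlo : ∀ d n, lo d n ≤ pt d := by
    intro d n
    rw [hpt]
    exact le_ciSup ⟨hi d 0, by rintro _ ⟨k, rfl⟩; exact hlohi d k 0⟩ n
  have hpthi : ∀ d n, pt d ≤ hi d n := by
    intro d n
    rw [hpt]
    exact ciSup_le fun k => hlohi d k n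
  have hpt0 : ∀ d, (x₀ : ℝ) ≤ pt d := by
    intro d
    have := hptlo d 0
    rw [hlo] at this
    simp only [pow_zero, div_one, Real.rpow_one, X0] at this
    exact this
  have hpt1 : ∀ d, pt d ≤ x₀ + 1 := by
    intro d
    have := hpthi d 0
    rw [hhi] at this
    simp only [pow_zero, div_one, Real.rpow_one, X0] at this
    exact this
  have hfl1 : ∀ d n, (X d n : ℝ) ≤ pt d ^ (c ^ n) := by
    intro d n
    have h3 := hptlo d n
    rw [hlo] at h3
    simp only at h3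
    have hp : (0 : ℝ) < c ^ n := by positivity
    have h4 := Real.rpow_le_rpow (by positivity) h3 hp.le
    rw [← Real.rpow_mul (by linarith [hone d n]), one_div_mul_cancel hp.ne', Real.rpow_one] at h4
    exact h4
  have hfl2 : ∀ d n, pt d ^ (c ^ n) ≤ (X d n : ℝ) + 1 := by
    intro d n
    have h3 := hpthi d n
    rw [hhi] at h3
    simp only at h3
    have hp : (0 : ℝ) < c ^ n := by positivity
    have h4 := Real.rpow_le_rpow (by linarith [hpt0 d]) h3 hp.le
    rw [← Real.rpow_mul (by linarith [hone d n]), one_div_mul_cancel hp.ne', Real.rpow_one] at h4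
    exact h4
  have hfl3 : ∀ d n, pt d ^ (c ^ n) < (X d n : ℝ) + 1 := by
    intro d n
    by_contra hcon
    push Not at hcon
    have h3 := hfl2 d (n + 1)
    have h4 := hstep d n
    have h5 := Real.rpow_le_rpow (by linarith [hone d n]) hcon hc0.le
    rw [← Real.rpow_mul (by linarith [hpt0 d]), ← pow_succ] at h5
    linarith
  have hfloor : ∀ d n, ⌊pt d ^ (c ^ n)⌋₊ = X d n := by
    intro d n
    rw [Nat.floor_eq_iff (Real.rpow_nonneg (by linarith [hpt0 d]) _)]
    exact ⟨hfl1 d n, hfl3 d n⟩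
  refine ⟨pt, fun d => ⟨hpt0 d, hpt1 d, fun n hn => ?_⟩, ?_⟩
  · rw [hfloor]
    obtain ⟨k, rfl⟩ : ∃ k, n = k + 1 := ⟨n - 1, by omega⟩
    exact (hchild d k).1
  · -- separation
    have main : ∀ (d d' : (n : ℕ) → Fin (m n)) (n : ℕ), (∀ i < n, d i = d' i) →
        (d n : ℕ) < (d' n : ℕ) →
        ((((d' n : ℕ) : ℝ)) - ((d n : ℕ) : ℝ)) *
          (1 / (c ^ (n + 1) * ((x₀ : ℝ) + 1) ^ (c ^ (n + 1)))) ≤ pt d' - pt d := by
      intro d d' n heq hlt
      have hX' : X d n = X d' n := by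
        rw [hX]
        simp only
        exact node_congr ch x₀ _ _ n (fun i hi => by rw [heq i hi])
      have h3 := h2 n (X d n) (hlow d n) (d n : ℕ) (d' n : ℕ) hlt (d' n).2
      have h4 : X d (n + 1) + 2 * ((d' n : ℕ) - (d n : ℕ)) ≤ X d' (n + 1) := by
        rw [XS, XS, ← hX']
        exact h3
      have h5 : (X d (n + 1) : ℝ) + 2 * (((d' n : ℕ) : ℝ) - ((d n : ℕ) : ℝ)) ≤ X d' (n + 1) := by
        have : ((d' n : ℕ) : ℝ) - ((d n : ℕ) : ℝ) = (((d' n : ℕ) - (d n : ℕ) : ℕ) : ℝ) := by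
          rw [Nat.cast_sub hlt.le]
        rw [this]
        exact_mod_cast h4
      have h6 : (1 : ℝ) ≤ ((d' n : ℕ) : ℝ) - ((d n : ℕ) : ℝ) := by
        have : ((d n : ℕ) : ℝ) + 1 ≤ ((d' n : ℕ) : ℝ) := by exact_mod_cast hlt
        linarith
      obtain ⟨w, hw⟩ : ∃ w : ℝ, w = X d' (n + 1) := ⟨_, rfl⟩
      obtain ⟨u, hu⟩ : ∃ u : ℝ, u = (X d (n + 1) : ℝ) + 1 := ⟨_, rfl⟩
      obtain ⟨C, hC⟩ : ∃ C : ℝ, C = c ^ (n + 1) := ⟨_, rfl⟩
      have hC1 : 1 ≤ C := by rw [hC]; exact hcn _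
      have hw1 : 1 ≤ w := by rw [hw]; exact hone d' (n + 1)
      have huw : u + (((d' n : ℕ) : ℝ) - ((d n : ℕ) : ℝ)) ≤ w := by rw [hu, hw]; linarith
      have h7 := root_sub (u := u) (w := w) (C := C) (by rw [hu]; positivity) (by linarith) hw1 hC1
      have h8 : w ^ (1 / C) ≤ pt d' := by
        have := hptlo d' (n + 1)
        rw [hlo] at this
        rw [hw, hC]; exact this
      have h9 : pt d ≤ u ^ (1 / C) := by
        have := hpthi d (n + 1)
        rw [hhi] at this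
        rw [hu, hC]; exact this
      have h10 : w ≤ ((x₀ : ℝ) + 1) ^ C := by
        have := hup d' (n + 1)
        rw [hw, hC]; linarith
      have h11 : (((d' n : ℕ) : ℝ) - ((d n : ℕ) : ℝ)) * (1 / (C * ((x₀ : ℝ) + 1) ^ C)) ≤
          (w - u) / (C * w) := by
        rw [mul_one_div]
        have e1 : (((d' n : ℕ) : ℝ) - ((d n : ℕ) : ℝ)) / (C * ((x₀ : ℝ) + 1) ^ C) ≤
            (((d' n : ℕ) : ℝ) - ((d n : ℕ) : ℝ)) / (C * w) := by
          apply div_le_div_of_nonneg_left (by linarith) (by positivity)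
          exact mul_le_mul_of_nonneg_left h10 (by linarith)
        refine e1.trans ?_
        apply div_le_div_of_nonneg_right (by linarith) (by positivity)
      rw [← hC]
      linarith
    intro d d' n heq hne
    rcases lt_or_gt_of_ne (fun h => hne (Fin.ext h) : ((d n : ℕ)) ≠ (d' n : ℕ)) with h | h
    · have := main d d' n heq h
      have h6 : ((d n : ℕ) : ℝ) ≤ ((d' n : ℕ) : ℝ) := by exact_mod_cast h.le
      rw [abs_sub_comm, abs_of_nonneg (by linarith : (0 : ℝ) ≤ ((d' n : ℕ) : ℝ) - ((d n : ℕ) : ℝ)),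
        abs_sub_comm]
      exact this.trans (le_abs_self _)
    · have := main d' d n (fun i hi => (heq i hi).symm) h
      have h6 : ((d' n : ℕ) : ℝ) ≤ ((d n : ℕ) : ℝ) := by exact_mod_cast h.le
      rw [abs_of_nonneg (by linarith : (0 : ℝ) ≤ ((d n : ℕ) : ℝ) - ((d' n : ℕ) : ℝ))]
      exact this.trans (le_abs_self _)

end Pool.Agent.X10.ML
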