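import Pool.Agent.X10.ML.Near
import Pool.Agent.H370R2.Count

set_option autoImplicit false

/-! # Mills sequences that are very close to ordinates of zeros (helper10) -/

namespace Pool.Agent.X10.ML

open Finset Filter H370

/-- all elements of `A` are ordinates of zeros of `F` in the critical strip -/
def Ordinates (F : ℂ → ℂ) (A : Set ℝ) : Prop :=
  ∀ a ∈ A, ∃ s : ℂ, 0 < s.re ∧ s.re < 1 ∧ s.im = a ∧ F s = 0

/-- the number of cells that contain an ordinate -/
lemma cells {F : ℂ → ℂ} (hF : GoodL F) (A : Set ℝ) (hA : Ordinates F A) : ∃ C : ℝ, 0 < C ∧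
    ∀ X H : ℝ, 4 ≤ X → 0 ≤ H → H ≤ X → ∃ T : Finset ℕ,
      (∀ y ∈ T, X ≤ y ∧ (y : ℝ) + 1 ≤ X + H ∧ Cell A y) ∧
      ((A ∩ Set.Ioc X (X + H)).ncard : ℝ) ≤ C * Real.log X * (T.card + 2) := by
  classical
  obtain ⟨C, hC, hz⟩ := zcount hF
  refine ⟨2 * C, by positivity, fun X H hX hH0 hHX => ?_⟩
  have hlogX : 0 < Real.log X := Real.log_pos (by linarith)
  -- finiteness
  have hsub : ∀ a b : ℝ, A ∩ Set.Ioc a b ⊆ Complex.im '' zset F a b := by
    rintro a b t ⟨ht, ht1, ht2⟩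
    obtain ⟨s, s1, s2, s3, s4⟩ := hA t ht
    exact ⟨s, ⟨s1, s2, by rw [s3]; exact ht1, by rw [s3]; exact ht2, s4⟩, s3⟩
  have hfin : ∀ a b : ℝ, 1 ≤ a → (A ∩ Set.Ioc a b).Finite := fun a b ha =>
    ((zset_finite hF a b ha).image _).subset (hsub a b)
  have hcount : ∀ a b : ℝ, 1 ≤ a → (A ∩ Set.Ioc a b).ncard ≤ NN F a b := by
    intro a b ha
    have hf := zset_finite hF a b ha
    calc (A ∩ Set.Ioc a b).ncard ≤ (Complex.im '' zset F a b).ncard :=
          Set.ncard_le_ncard (hsub a b) (hf.image _)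
      _ ≤ (zset F a b).ncard := Set.ncard_image_le hf
      _ ≤ NN F a b := by
        have := Loc.card_le_NN hF a b ha
        rwa [← Set.ncard_eq_toFinset_card _ hf] at this
  obtain ⟨P, hP⟩ : ∃ P : Finset ℝ, P = (hfin X (X + H) (by linarith)).toFinset := ⟨_, rfl⟩
  have hPm : ∀ t ∈ P, t ∈ A ∧ X < t ∧ t ≤ X + H := by
    intro t ht
    rw [hP, Set.Finite.mem_toFinset] at ht
    exact ⟨ht.1, ht.2.1, ht.2.2⟩
  have hPc : (A ∩ Set.Ioc X (X + H)).ncard = P.card := by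
    rw [hP]; exact Set.ncard_eq_toFinset_card _ _
  rw [hPc]
  -- the fibres
  have hfib : ∀ y ∈ P.image (fun t => ⌊t⌋₊), ((P.filter fun t => ⌊t⌋₊ = y).card : ℝ) ≤
      2 * C * Real.log X := by
    intro y hy
    rw [mem_image] at hy
    obtain ⟨t, ht, hty⟩ := hy
    obtain ⟨t1, t2, t3⟩ := hPm t ht
    have y1 : (y : ℝ) ≤ t := by rw [← hty]; exact Nat.floor_le (by linarith)
    have y2 : t < y + 1 := by rw [← hty]; exact Nat.lt_floor_add_one _
    have hy3 : (3 : ℝ) ≤ y := by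
      have : 3 < (y : ℝ) := by linarith
      exact this.le
    have h1 : (P.filter fun t => ⌊t⌋₊ = y).card ≤ (A ∩ Set.Ioc ((y : ℝ) - 1) (y + 1)).ncard := by
      rw [← Set.ncard_coe_finset]
      apply Set.ncard_le_ncard _ (hfin _ _ (by linarith))
      intro t' ht'
      rw [coe_filter] at ht'
      obtain ⟨h2, h3⟩ := ht'
      obtain ⟨t1', t2', t3'⟩ := hPm t' h2
      have y1' : (y : ℝ) ≤ t' := by rw [← h3]; exact Nat.floor_le (by linarith)
      have y2' : t' < y + 1 := by rw [← h3]; exact Nat.lt_floor_add_one _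
      exact ⟨t1', by linarith, y2'.le⟩
    have h2 := hz y hy3
    have h3 : ((P.filter fun t => ⌊t⌋₊ = y).card : ℝ) ≤ C * Real.log y := by
      refine le_trans ?_ h2
      exact_mod_cast h1.trans (hcount _ _ (by linarith))
    refine h3.trans ?_
    have h4 : Real.log y ≤ 2 * Real.log X := by
      have : Real.log y ≤ Real.log (X * X) := Real.log_le_log (by linarith) (by nlinarith)
      rwa [Real.log_mul (by linarith) (by linarith), ← two_mul] at this
    calc C * Real.log y ≤ C * (2 * Real.log X) := mul_le_mul_of_nonneg_left h4 hC.le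
      _ = 2 * C * Real.log X := by ring
  have hsum : (P.card : ℝ) ≤ 2 * C * Real.log X * (P.image (fun t => ⌊t⌋₊)).card := by
    have h1 := card_eq_sum_card_image (fun t : ℝ => ⌊t⌋₊) P
    have h2 : (P.card : ℝ) = ∑ y ∈ P.image (fun t => ⌊t⌋₊),
        ((P.filter fun t => ⌊t⌋₊ = y).card : ℝ) := by rw [h1]; push_cast; rfl
    rw [h2]
    calc ∑ y ∈ P.image (fun t => ⌊t⌋₊), ((P.filter fun t => ⌊t⌋₊ = y).card : ℝ)
        ≤ ∑ y ∈ P.image (fun t => ⌊t⌋₊), 2 * C * Real.log X := sum_le_sum hfib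
      _ = 2 * C * Real.log X * (P.image (fun t => ⌊t⌋₊)).card := by
        rw [sum_const, nsmul_eq_mul]; ring
  refine ⟨(P.image (fun t => ⌊t⌋₊)).filter (fun y : ℕ => X ≤ y ∧ (y : ℝ) + 1 ≤ X + H), ?_, ?_⟩
  · intro y hy
    rw [mem_filter, mem_image] at hy
    obtain ⟨⟨t, ht, hty⟩, h1, h2⟩ := hy
    obtain ⟨t1, t2, t3⟩ := hPm t ht
    refine ⟨h1, h2, t, t1, ?_, ?_⟩
    · rw [← hty]; exact Nat.floor_le (by linarith)
    · rw [← hty]; exact Nat.lt_floor_add_one _
  · refine hsum.trans (mul_le_mul_of_nonneg_left ?_ (by positivity))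
    have h1 : P.image (fun t => ⌊t⌋₊) ⊆
        (P.image (fun t => ⌊t⌋₊)).filter (fun y : ℕ => X ≤ y ∧ (y : ℝ) + 1 ≤ X + H) ∪
          {⌊X⌋₊, ⌊X + H⌋₊} := by
      intro y hy
      rw [mem_union, mem_filter, mem_insert, mem_singleton]
      by_cases h : X ≤ y ∧ (y : ℝ) + 1 ≤ X + H
      · exact Or.inl ⟨hy, h⟩
      · right
        rw [mem_image] at hy
        obtain ⟨t, ht, hty⟩ := hy
        obtain ⟨t1, t2, t3⟩ := hPm t ht
        have y1 : (y : ℝ) ≤ t := by rw [← hty]; exact Nat.floor_le (by linarith)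
        have y2 : t < y + 1 := by rw [← hty]; exact Nat.lt_floor_add_one _
        rw [not_and_or, not_le, not_le] at h
        rcases h with h | h
        · left
          symm
          rw [Nat.floor_eq_iff (by linarith)]
          exact ⟨h.le, by linarith⟩
        · right
          symm
          rw [Nat.floor_eq_iff (by linarith)]
          exact ⟨by linarith, by linarith⟩
    have h2 := (card_le_card h1).trans (card_union_le _ _)
    have h3 : ({⌊X⌋₊, ⌊X + H⌋₊} : Finset ℕ).card ≤ 2 := card_le_two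
    exact_mod_cast h2.trans (Nat.add_le_add_left h3 _)

/-- **Mills sequences very close to given numbers**, in a prescribed pattern, if the numbers are
in a positive proportion of all cells. -/
theorem mills_cells {J : Type} [Finite J] (A : J → Set ℝ) (c h : ℝ) (hc : 1 < c) (hh : h < 1 - 1 / c)
    (hcount : ∀ j, ∃ κ X₀ : ℝ, 0 < κ ∧ ∀ X H : ℝ, X₀ ≤ X → X ^ h ≤ H → H ≤ X → ∃ T : Finset ℕ,
      (∀ y ∈ T, X ≤ y ∧ (y : ℝ) + 1 ≤ X + H ∧ Cell (A j) y) ∧ κ * H ≤ T.card)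
    (δ : ℕ → ℝ) (hδ0 : ∀ n, 0 < δ n)
    (hδ : ∀ ε : ℝ, 0 < ε → ∀ᶠ n : ℕ in atTop, Real.exp (-(ε * c ^ n)) ≤ δ n)
    (σ : ℕ → J) (U : Set ℝ) (hU : IsOpen U) (hne : (U ∩ Set.Ioi 1).Nonempty) :
    dimH {θ : ℝ | θ ∈ U ∧ 1 < θ ∧ ∃ N : ℕ, ∀ n : ℕ, N ≤ n →
      ∃ a ∈ A (σ n), |θ ^ (c ^ n) - a| ≤ δ n} = 1 := by
  classical
  apply dim_eq_one
  intro s' hs0' hs1'
  have hc0 : 0 < c := by linarith
  -- choose the parameter close to one
  obtain ⟨s, hs, hs1, hsh⟩ : ∃ s, s' ≤ s ∧ s < 1 ∧ h ≤ 1 - 1 / c - eta c s / (2 * c) := by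
    obtain ⟨d, hd⟩ : ∃ d, d = 1 - 1 / c - h := ⟨_, rfl⟩
    have hd0 : 0 < d := by rw [hd]; linarith
    refine ⟨max s' (1 - 8 * c * d), le_max_left _ _, max_lt hs1' (by
      have : 0 < 8 * c * d := by positivity
      linarith), ?_⟩
    have h1 : 1 - max s' (1 - 8 * c * d) ≤ 8 * c * d := by
      have := le_max_right s' (1 - 8 * c * d)
      linarith
    have h2 : eta c (max s' (1 - 8 * c * d)) ≤ 2 * c * d := by
      rw [eta]
      have e1 : min (c - 1) 1 ≤ 1 := min_le_right _ _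
      have e2 : 0 < min (c - 1) 1 := lt_min (by linarith) one_pos
      have e3 : 0 ≤ 1 - max s' (1 - 8 * c * d) := by
        have : max s' (1 - 8 * c * d) < 1 := max_lt hs1' (by
          have : 0 < 8 * c * d := by positivity
          linarith)
        linarith
      calc min (c - 1) 1 * (1 - max s' (1 - 8 * c * d)) / 4
          ≤ 1 * (1 - max s' (1 - 8 * c * d)) / 4 := by gcongr
        _ ≤ 2 * c * d := by linarith
    have h3 : eta c (max s' (1 - 8 * c * d)) / (2 * c) ≤ d := by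
      rw [div_le_iff₀ (by positivity)]; linarith
    linarith [hd, h3]
  have hs0 : 0 < s := lt_of_lt_of_le hs0' hs
  refine (ENNReal.ofReal_le_ofReal hs).trans ?_
  -- shrink `δ`
  have key := mills_near c s hc hs0 hs1 (fun n => A (σ n)) (fun n => min (δ n) 1)
    (fun n => lt_min (hδ0 n) one_pos) (fun n => min_le_right _ _) (by
      intro ε hε
      filter_upwards [hδ ε hε] with n hn
      refine le_min hn ?_
      rw [Real.exp_le_one_iff]
      have : 0 ≤ ε * c ^ n := by positivity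
      linarith) (by
      intro ϑ hϑ
      obtain ⟨ζ, hζ⟩ : ∃ ζ, ζ = eta c s / (2 * c) := ⟨_, rfl⟩
      rw [← hζ] at hsh ⊢
      have hη0 := eta_pos hc hs1
      have hηc := eta_le hc hs0 hs1
      have hζ0 : 0 < ζ := by rw [hζ]; positivity
      have hcζ : c * ζ = eta c s / 2 := by rw [hζ]; field_simp
      have hexp : 0 < 1 - 1 / c - ζ := by
        have : 0 < c * (1 - 1 / c - ζ) := by
          have e : c * (1 - 1 / c - ζ) = c - 1 - c * ζ := by field_simp
          rw [e, hcζ]; linarith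
        exact (pos_iff_pos_of_mul_pos this).1 hc0
      choose κ T₀ hκ hcount using hcount
      have evj : ∀ j : J, ∀ᶠ X : ℝ in atTop, T₀ j ≤ X ∧ 1 ≤ X ∧ 1 / κ j ≤ X ^ ζ := by
        intro j
        filter_upwards [eventually_ge_atTop (T₀ j), eventually_ge_atTop 1,
          (tendsto_rpow_atTop hζ0).eventually_ge_atTop (1 / κ j)] with X e1 e2 e4
        exact ⟨e1, e2, e4⟩
      obtain ⟨X₁, hX₁⟩ := eventually_atTop.1 (eventually_all.2 evj)
      have t0 : Tendsto (fun n : ℕ => ϑ ^ (c ^ n)) atTop atTop := by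
        have t1 : Tendsto (fun N : ℕ => c ^ N) atTop atTop := tendsto_pow_atTop_atTop_of_one_lt hc
        have e1 : Tendsto (fun y : ℝ => ϑ ^ y) atTop atTop := by
          have := Real.tendsto_exp_atTop.comp (tendsto_id.const_mul_atTop (Real.log_pos hϑ))
          refine this.congr fun y => ?_
          simp only [Function.comp, id]
          rw [Real.rpow_def_of_pos (by linarith)]
        exact e1.comp t1
      obtain ⟨n₁, hn₁⟩ := eventually_atTop.1 (t0.eventually_ge_atTop X₁)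
      refine ⟨n₁, fun n hn X H hX hH1 hH2 => ?_⟩
      obtain ⟨e1, e2, e4⟩ := hX₁ X ((hn₁ n hn).trans hX) (σ n)
      have hX0 : 0 < X := by linarith
      have hH0 : 0 < H := lt_of_lt_of_le (by positivity) hH1
      have hHh : X ^ h ≤ H := (Real.rpow_le_rpow_of_exponent_le (by linarith) hsh).trans hH1
      obtain ⟨T, hT1, hT2⟩ := hcount (σ n) X H e1 hHh hH2
      refine ⟨T, hT1, ?_⟩
      have hκn := hκ (σ n)
      have h5 : 1 ≤ X ^ ζ * κ (σ n) := by
        rw [div_le_iff₀ hκn] at e4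
        exact e4
      have h7 : H ≤ X ^ ζ * T.card := by
        calc H = 1 * H := (one_mul H).symm
          _ ≤ (X ^ ζ * κ (σ n)) * H := mul_le_mul_of_nonneg_right h5 hH0.le
          _ = X ^ ζ * (κ (σ n) * H) := by ring
          _ ≤ X ^ ζ * T.card := mul_le_mul_of_nonneg_left hT2 (by positivity)
      calc X ^ (-ζ) * H ≤ X ^ (-ζ) * (X ^ ζ * T.card) := mul_le_mul_of_nonneg_left h7 (by positivity)
        _ = T.card := by
          rw [← mul_assoc, ← Real.rpow_add hX0, neg_add_cancel, Real.rpow_zero, one_mul]) U hU hne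
  refine key.trans (dimH_mono ?_)
  rintro θ ⟨t1, t2, N, t3⟩
  refine ⟨t1, t2, N, fun n hn => ?_⟩
  obtain ⟨a, ha, h1⟩ := t3 n hn
  exact ⟨a, ha, h1.trans (min_le_left _ _)⟩

/-- **Mills sequences very close to ordinates of zeros**, in a prescribed pattern. -/
theorem mills_zeros {J : Type} [Finite J] (F : J → ℂ → ℂ) (hF : ∀ j, GoodL (F j)) (A : J → Set ℝ)
    (hA : ∀ j, Ordinates (F j) (A j)) (c h : ℝ) (hc : 1 < c) (h0 : 0 < h) (hh : h < 1 - 1 / c)
    (hcount : ∀ j, ∃ κ T₀ : ℝ, 0 < κ ∧ ∀ T H : ℝ, T₀ ≤ T → T ^ h ≤ H → H ≤ T →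
      κ * (H * Real.log T) ≤ ((A j ∩ Set.Ioc T (T + H)).ncard : ℝ))
    (δ : ℕ → ℝ) (hδ0 : ∀ n, 0 < δ n)
    (hδ : ∀ ε : ℝ, 0 < ε → ∀ᶠ n : ℕ in atTop, Real.exp (-(ε * c ^ n)) ≤ δ n)
    (σ : ℕ → J) (U : Set ℝ) (hU : IsOpen U) (hne : (U ∩ Set.Ioi 1).Nonempty) :
    dimH {θ : ℝ | θ ∈ U ∧ 1 < θ ∧ ∃ N : ℕ, ∀ n : ℕ, N ≤ n →
      ∃ a ∈ A (σ n), |θ ^ (c ^ n) - a| ≤ δ n} = 1 := by
  apply mills_cells A c h hc hh _ δ hδ0 hδ σ U hU hne
  intro j
  obtain ⟨κ, T₀, hκ, hcount⟩ := hcount j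
  obtain ⟨C, hC, hcell⟩ := cells (hF j) (A j) (hA j)
  have ev : ∀ᶠ X : ℝ in atTop, T₀ ≤ X ∧ 4 ≤ X ∧ 4 * C / κ ≤ X ^ h := by
    filter_upwards [eventually_ge_atTop T₀, eventually_ge_atTop 4,
      (tendsto_rpow_atTop h0).eventually_ge_atTop (4 * C / κ)] with X e1 e2 e3
    exact ⟨e1, e2, e3⟩
  obtain ⟨X₁, hX₁⟩ := eventually_atTop.1 ev
  refine ⟨κ / (2 * C), X₁, by positivity, fun X H hX hXH hHX => ?_⟩
  obtain ⟨e1, e2, e3⟩ := hX₁ X hX
  have hX0 : 0 < X := by linarith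
  have hH0 : 0 < H := lt_of_lt_of_le (by positivity) hXH
  obtain ⟨T, hT1, hT2⟩ := hcell X H e2 hH0.le hHX
  refine ⟨T, hT1, ?_⟩
  have h1 := (hcount X H e1 hXH hHX).trans hT2
  have hlog : 0 < Real.log X := Real.log_pos (by linarith)
  have h2 : κ * H ≤ C * (T.card + 2) := by
    have : (κ * H) * Real.log X ≤ (C * (T.card + 2)) * Real.log X := by
      calc (κ * H) * Real.log X = κ * (H * Real.log X) := by ring
        _ ≤ C * Real.log X * (T.card + 2) := h1
        _ = _ := by ring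
    exact le_of_mul_le_mul_right this hlog
  have h3 : 4 * C ≤ κ * H := by
    rw [div_le_iff₀ hκ] at e3
    calc 4 * C ≤ X ^ h * κ := e3
      _ ≤ H * κ := mul_le_mul_of_nonneg_right hXH hκ.le
      _ = _ := by ring
  have h4 : κ * H ≤ 2 * C * T.card := by nlinarith
  calc κ / (2 * C) * H = (κ * H) / (2 * C) := by ring
    _ ≤ (2 * C * T.card) / (2 * C) := div_le_div_of_nonneg_right h4 (by positivity)
    _ = T.card := by field_simp

end Pool.Agent.X10.ML
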